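import Pool.Agent.Lib.Helper13.Frob.OrdSet

/-!
# Orders of vanishing attached to the lattice points of a dilate of a convex body
-/

set_option linter.unusedSectionVars false

namespace Pool.Agent.Lib.Helper13.Frob

open MvPolynomial MeasureTheory Filter Set
open scoped Pointwise Topology

variable {n : ℕ}

open Classical in
/-- The lattice points of the dilate `m K` (the empty set if there are infinitely many). -/
noncomputable def latPts (K : Set (Fin n → ℝ)) (m : ℕ) : Finset (Fin n → ℤ) :=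
  if h : {u : Fin n → ℤ | (fun i => (u i : ℝ)) ∈ (m : ℝ) • K}.Finite then h.toFinset else ∅

theorem finite_latPts {K : Set (Fin n → ℝ)} (hK : Bornology.IsBounded K) (m : ℕ) :
    {u : Fin n → ℤ | (fun i => (u i : ℝ)) ∈ (m : ℝ) • K}.Finite := by
  obtain ⟨R, hR⟩ := (hK.smul₀ (m : ℝ)).subset_closedBall 0
  refine (Set.finite_Icc (fun _ : Fin n => -(⌈R⌉₊ : ℤ)) (fun _ => (⌈R⌉₊ : ℤ))).subset ?_
  intro v hv
  have h1 := hR hv
  rw [mem_closedBall_zero_iff] at h1
  have h2 : ∀ i, |(v i : ℝ)| ≤ (⌈R⌉₊ : ℝ) := by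
    intro i
    have h3 := norm_le_pi_norm (fun i => (v i : ℝ)) i
    rw [Real.norm_eq_abs] at h3
    exact h3.trans (h1.trans (Nat.le_ceil R))
  rw [Set.mem_Icc]
  constructor
  · intro i
    have := (abs_le.1 (h2 i)).1
    exact_mod_cast this
  · intro i
    have := (abs_le.1 (h2 i)).2
    exact_mod_cast this

theorem mem_latPts {K : Set (Fin n → ℝ)} (hK : Bornology.IsBounded K) {m : ℕ}
    {u : Fin n → ℤ} : u ∈ latPts K m ↔ (fun i => (u i : ℝ)) ∈ (m : ℝ) • K := by
  rw [latPts, dif_pos (finite_latPts hK m), Set.Finite.mem_toFinset]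
  rfl

theorem tendsto_sum_latPts {K : Set (Fin n → ℝ)} (hK : IsCompact K) (hc : Convex ℝ K)
    {G : (Fin n → ℝ) → ℝ} (hG : Continuous G) :
    Tendsto (fun m : ℕ => (∑ u ∈ latPts K m, G (fun i => (u i : ℝ) / m)) / (m : ℝ) ^ n) atTop
      (𝓝 (∫ x in K, G x)) := by
  classical
  have h := tendsto_tsum_div_pow_atTop_integral K G hG hK.isBounded hK.measurableSet
    (hc.addHaar_frontier volume)
  rw [Fintype.card_fin] at h
  refine h.congr' ?_
  filter_upwards [eventually_gt_atTop 0] with m hm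
  have hm' : (m : ℝ) ≠ 0 := by positivity
  congr 1
  have hset : (K ∩ (m : ℝ)⁻¹ •
      (Submodule.span ℤ (Set.range (Pi.basisFun ℝ (Fin n))) : Set (Fin n → ℝ))) =
      ↑((latPts K m).image fun u => fun i => (u i : ℝ) / m) := by
    ext x
    rw [Finset.coe_image, Set.mem_image]
    constructor
    · rintro ⟨hxS, hxL⟩
      rw [Set.mem_inv_smul_set_iff₀ hm', SetLike.mem_coe,
        (Pi.basisFun ℝ (Fin n)).mem_span_iff_repr_mem ℤ] at hxL
      choose z hz using hxL
      have hz' : ∀ i, (z i : ℝ) = m * x i := by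
        intro i
        have := hz i
        rw [Pi.basisFun_repr] at this
        simpa using this
      refine ⟨z, ?_, ?_⟩
      · rw [Finset.mem_coe, mem_latPts hK.isBounded]
        have : (fun i => (z i : ℝ)) = (m : ℝ) • x := by
          ext i; rw [hz']; rfl
        rw [this]
        exact Set.smul_mem_smul_set hxS
      · ext i
        rw [hz' i]
        field_simp
    · rintro ⟨v, hv, rfl⟩
      rw [Finset.mem_coe, mem_latPts hK.isBounded] at hv
      have h1 : (fun i => (v i : ℝ) / m) = (m : ℝ)⁻¹ • fun i => (v i : ℝ) := by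
        ext i; simp [div_eq_inv_mul]
      refine ⟨?_, ?_⟩
      · rw [Set.mem_smul_set_iff_inv_smul_mem₀ hm'] at hv
        rw [h1]
        exact hv
      · rw [h1, Set.mem_inv_smul_set_iff₀ hm', smul_smul, mul_inv_cancel₀ hm', one_smul,
          SetLike.mem_coe, (Pi.basisFun ℝ (Fin n)).mem_span_iff_repr_mem ℤ]
        intro i
        exact ⟨v i, by simp⟩
  rw [hset, Finset.tsum_subtype' _ G, Finset.sum_image]
  intro v _ w _ h
  ext i
  have h1 := congrFun h i
  simp only at h1
  have h2 : (v i : ℝ) = w i := by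
    rwa [div_left_inj' hm'] at h1
  exact_mod_cast h2

/-- **The orders of vanishing attached to the lattice points of `m K`.** -/
theorem exists_orders_lat (hn : 0 < n) {K : Set (Fin n → ℝ)} (hK : IsCompact K)
    (hc : Convex ℝ K) (h0 : (0 : Fin n → ℝ) ∈ interior K)
    (hlat : ∀ x ∈ interior K, (∀ i, ∃ z : ℤ, x i = (z : ℝ)) → x = 0)
    {Γ : Type*} [AddCommGroup Γ] [LinearOrder Γ] [IsOrderedAddMonoid Γ]
    (ν : (Fin n → ℤ) →+ Γ) (hν : Function.Injective ν) {m : ℕ} (hm : 0 < m) :
    ∃ j : (Fin n → ℤ) → ℕ,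
      (∀ J : ℕ, ((latPts K m).filter fun u => j u < J).card ≤ (n + J - 1).choose n) ∧
      (∀ k : (Fin n → ℤ) → ℕ, 0 < ∑ u ∈ latPts K m, k u → ∀ c : ℝ, 0 < c →
        (∀ y ∈ K, c • (y - (fun i => (∑ u ∈ latPts K m, (k u : ℝ) * (u i : ℝ)) /
          ((m : ℝ) * ∑ u ∈ latPts K m, (k u : ℝ)))) ∈ interior K) →
        c * ∑ u ∈ latPts K m, (k u : ℝ) * (j u : ℝ) ≤
          (n : ℝ) * m * ∑ u ∈ latPts K m, (k u : ℝ)) ∧
      (∀ u ∈ latPts K m, ∀ D : ℕ, (∀ v ∈ latPts K m, ν v ≤ ν u → ∀ i, |v i - u i| ≤ (D : ℤ)) →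
        j u ≤ 2 * n * D) := by
  classical
  have hb := hK.isBounded
  obtain ⟨R, hR⟩ := hb.subset_closedBall (0 : Fin n → ℝ)
  set T : ℕ := ⌈R⌉₊ with hT
  have hTK : ∀ x ∈ K, ∀ i, 0 ≤ x i + T := by
    intro x hx i
    have h1 := hR hx
    rw [mem_closedBall_zero_iff] at h1
    have h2 := (norm_le_pi_norm x i).trans (h1.trans (Nat.le_ceil R))
    rw [Real.norm_eq_abs, abs_le] at h2
    linarith [h2.1]
  have hm0 : (0 : ℝ) < m := by exact_mod_cast hm
  have hmem : ∀ u, u ∈ latPts K m ↔ (fun i => (u i : ℝ)) ∈ (m : ℝ) • K := fun u => mem_latPts hb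
  have hmem' : ∀ u, u ∈ latPts K m → ∃ x ∈ K, ∀ i, (u i : ℝ) = m * x i := by
    intro u hu
    obtain ⟨x, hx, hxu⟩ := (hmem u).1 hu
    exact ⟨x, hx, fun i => (congrFun hxu i).symm⟩
  -- the translated exponents
  set e : (Fin n → ℤ) → (Fin n →₀ ℕ) := fun u =>
    Finsupp.equivFunOnFinite.symm fun i => (u i + m * T).toNat with he
  have he1 : ∀ u ∈ latPts K m, ∀ i, ((e u i : ℕ) : ℤ) = u i + m * T := by
    intro u hu i
    obtain ⟨x, hx, hxu⟩ := hmem' u hu
    have h1 : (0 : ℝ) ≤ ((u i + m * T : ℤ) : ℝ) := by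
      push_cast
      rw [hxu i]
      have := hTK x hx i
      have h2 : (m : ℝ) * x i + m * T = m * (x i + T) := by ring
      rw [h2]; positivity
    have h2 : 0 ≤ u i + m * T := by exact_mod_cast h1
    simp only [he, Finsupp.equivFunOnFinite_symm_apply_apply]
    exact Int.toNat_of_nonneg h2
  have heinj : ∀ u ∈ latPts K m, ∀ v ∈ latPts K m, e u = e v → u = v := by
    intro u hu v hv h
    ext i
    have h1 := he1 u hu i
    have h2 := he1 v hv i
    rw [h] at h1
    omega
  set U : Finset (Fin n →₀ ℕ) := (latPts K m).image e with hU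
  set μ : (Fin n →₀ ℕ) →+ Γ :=
    { toFun := fun v => ν fun i => (v i : ℤ)
      map_zero' := by
        have : (fun i => (((0 : Fin n →₀ ℕ) i : ℕ) : ℤ)) = 0 := by ext i; simp
        rw [this, map_zero]
      map_add' := by
        intro v w
        rw [← map_add]
        congr 1 } with hμdef
  have hμ : Function.Injective μ := by
    intro v w h
    have h1 := hν h
    ext i
    have := congrFun h1 i
    exact_mod_cast this
  have hμe : ∀ u ∈ latPts K m, μ (e u) = ν u + ν (fun _ => ((m * T : ℕ) : ℤ)) := by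
    intro u hu
    rw [← map_add]
    show ν (fun i => ((e u i : ℕ) : ℤ)) = _
    congr 1
    ext i
    rw [he1 u hu i]
    simp
  obtain ⟨d, hd1, hd2⟩ := exists_ord (ZMod 2) μ U
  refine ⟨fun u => d (e u), ?_, ?_, ?_⟩
  · intro J
    refine le_trans ?_ (card_filter_ord hn hd2 J)
    apply Finset.card_le_card_of_injOn e
    · intro u hu
      rw [Finset.mem_coe, Finset.mem_filter] at hu
      rw [Finset.mem_coe, Finset.mem_filter]
      exact ⟨Finset.mem_image_of_mem e hu.1, hu.2⟩
    · intro u hu v hv h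
      rw [Finset.mem_coe, Finset.mem_filter] at hu hv
      exact heinj u hu.1 v hv.1 h
  · intro k hk c hc0 hcK
    have hwit : ∀ u : Fin n → ℤ, ∃ f : MvPolynomial (Fin n) (ZMod 2), u ∈ latPts K m →
        Wit μ U (d (e u)) (e u) f := by
      intro u
      by_cases hu : u ∈ latPts K m
      · obtain ⟨f, hf⟩ := hd1 (e u) (Finset.mem_image_of_mem e hu)
        exact ⟨f, fun _ => hf⟩
      · exact ⟨0, fun h => absurd h hu⟩
    choose s hs using hwit
    set M : ℕ := ∑ u ∈ latPts K m, k u with hM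
    have hM0 : (0 : ℝ) < M := by exact_mod_cast hk
    have hMr : (M : ℝ) = ∑ u ∈ latPts K m, (k u : ℝ) := by rw [hM]; push_cast; rfl
    set S : Set (Fin n → ℝ) := {y | ∃ x ∈ K, ∀ i, y i = m * (x i + T)} with hS
    have hSconv : Convex ℝ S := by
      rintro y ⟨x, hx, hxy⟩ y' ⟨x', hx', hxy'⟩ a b ha hb' hab
      refine ⟨a • x + b • x', hc hx hx' ha hb' hab, fun i => ?_⟩
      simp only [Pi.add_apply, Pi.smul_apply, smul_eq_mul]
      rw [hxy i, hxy' i]
      have : (T : ℝ) = a * T + b * T := by rw [← add_mul, hab, one_mul]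
      linear_combination (-(m : ℝ)) * this
    have hSne : S.Nonempty := ⟨fun _ => m * ((0 : ℝ) + T), 0, interior_subset h0, fun i => rfl⟩
    have hUS : ∀ v ∈ U, toReal v ∈ S := by
      intro v hv
      obtain ⟨u, hu, rfl⟩ := Finset.mem_image.1 hv
      obtain ⟨x, hx, hxu⟩ := hmem' u hu
      refine ⟨x, hx, fun i => ?_⟩
      have h1 := he1 u hu i
      have h2 : ((e u i : ℕ) : ℝ) = (u i : ℝ) + m * T := by exact_mod_cast h1
      rw [toReal, h2, hxu i]
      ring
    have hlead : IsLead μ (∏ u ∈ latPts K m, s u ^ k u) (∑ u ∈ latPts K m, k u • e u) :=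
      IsLead.prod hμ _ fun u hu => ((hs u hu).2.2).pow hμ _
    have hsupp : SuppIn ((M : ℝ) • S) (∏ u ∈ latPts K m, s u ^ k u) := by
      refine SuppIn.prod_pow hSconv hSne _ s k fun u hu v hv => ?_
      exact hUS v ((hs u hu).1 hv)
    have hpow : (∏ u ∈ latPts K m, s u ^ k u) ∈
        onePt n (ZMod 2) ^ (∑ u ∈ latPts K m, k u * d (e u)) := by
      rw [← Finset.prod_pow_eq_pow_sum]
      refine Ideal.prod_mem_prod fun u hu => ?_
      rw [mul_comm, pow_mul]
      exact Ideal.pow_mem_pow (hs u hu).2.1 _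
    have hfin := order_le (P := interior K) hn hμ (hSconv.smul (M : ℝ)) hlead hsupp hpow
      (c := c / (m * M)) (by positivity)
      (by
        intro x hx θ h1 h2
        have h3 := hc.interior hx h0 h1 (sub_nonneg.2 h2) (by ring)
        rwa [smul_zero, add_zero] at h3)
      (by
        intro x hx
        have h1 := hlat _ hx fun i => ⟨x i, rfl⟩
        ext i
        have h2 := congrFun h1 i
        simp only [Pi.zero_apply] at h2 ⊢
        exact_mod_cast h2)
      (by
        rintro y ⟨y', ⟨x, hx, hxy⟩, rfl⟩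
        have h1 := hcK x hx
        convert h1 using 1
        ext i
        have h2 : toReal (∑ u ∈ latPts K m, k u • e u) i =
            ∑ u ∈ latPts K m, (k u : ℝ) * (u i : ℝ) + M * (m * T) := by
          rw [toReal, Finsupp.finsetSum_apply]
          push_cast
          rw [hMr, Finset.sum_mul, ← Finset.sum_add_distrib]
          refine Finset.sum_congr rfl fun u hu => ?_
          have h3 := he1 u hu i
          have h4 : ((e u i : ℕ) : ℝ) = (u i : ℝ) + m * T := by exact_mod_cast h3
          have h5 : (((k u • e u) i : ℕ) : ℝ) = (k u : ℝ) * ((e u i : ℕ) : ℝ) := by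
            simp
          have h6 : (((k u • ⇑(e u)) i : ℕ) : ℝ) = (k u : ℝ) * ((e u i : ℕ) : ℝ) := by
            simp
          first
            | rw [h5, h4]; ring
            | rw [h6, h4]; ring
        simp only [Pi.smul_apply, Pi.sub_apply, smul_eq_mul]
        rw [h2, hxy i, ← hMr]
        field_simp
        ring)
    have h5 : c / (m * M) * ((∑ u ∈ latPts K m, k u * d (e u) : ℕ) : ℝ) =
        (c * ∑ u ∈ latPts K m, (k u : ℝ) * (d (e u) : ℝ)) / (m * M) := by
      push_cast; ring
    rw [h5, div_le_iff₀ (by positivity), hMr] at hfin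
    linarith
  · intro u hu D hD
    obtain ⟨f, hf1, hf2, hf3⟩ := hd1 (e u) (Finset.mem_image_of_mem e hu)
    have h1 := le_of_support_bound hf3.ne_zero hf2
      (Finsupp.equivFunOnFinite.symm fun i => e u i - D) (B := ∑ _i : Fin n, 2 * D) (by
      intro v hv
      obtain ⟨w, hw, rfl⟩ := Finset.mem_image.1 (hf1 hv)
      have h2 := hf3.2 _ hv
      rw [hμe w hw, hμe u hu] at h2
      have h3 := hD w hw (le_of_add_le_add_right h2)
      have h4 : ∀ i, (e w i : ℤ) - e u i = w i - u i := by
        intro i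
        rw [he1 w hw i, he1 u hu i]; ring
      constructor
      · intro i
        have h5 := h3 i
        rw [← h4 i, abs_le] at h5
        simp only [Finsupp.equivFunOnFinite_symm_apply_apply]
        omega
      · refine Finset.sum_le_sum fun i _ => ?_
        have h5 := h3 i
        rw [← h4 i, abs_le] at h5
        simp only [Finsupp.equivFunOnFinite_symm_apply_apply]
        omega)
    refine h1.trans (le_of_eq ?_)
    simp
    ring

end Pool.Agent.Lib.Helper13.Frob
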