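import Pool.Agent.Lib.Helper13.Frob.Count

/-!
# The volume bound for a convex body in the nonnegative orthant
-/

namespace Pool.Agent.Lib.Helper13.Frob

open MeasureTheory Filter Set MvPolynomial
open scoped Pointwise Topology

variable {n : ℕ}

/-- The inequality for one dilate. -/
theorem dilate_ineq (hn : 0 < n) {S : Set (Fin n → ℝ)} (hb : Bornology.IsBounded S)
    (hc : Convex ℝ S) (z : Fin n → ℤ)
    (hlat : ∀ x ∈ interior S, (∀ i, ∃ m : ℤ, x i = (m : ℝ)) → x = fun i => (z i : ℝ))
    {c r : ℝ} (hc0 : 0 < c) (hc1 : c < 1) (hr : Metric.ball (fun i => (z i : ℝ)) r ⊆ interior S)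
    (hr0 : 0 < r) {m : ℕ} (hm : 0 < m) (hne : (expSet S hb m).Nonempty)
    (hclose : ∀ i, c * |(z i : ℝ) - (∑ v ∈ expSet S hb m, (v i : ℝ)) /
      ((m : ℝ) * ((expSet S hb m).card : ℝ))| < (1 - c) * r) (J : ℕ) :
    (J : ℝ) * ((expSet S hb m).card : ℝ) ≤ (n : ℝ) / c * ((m : ℝ) * ((expSet S hb m).card : ℝ)) +
      ((∑ j ∈ Finset.Icc 1 J, (lowExp n j).card : ℕ) : ℝ) := by
  set U := expSet S hb m with hU
  set N : ℝ := (U.card : ℝ) with hN
  set L : ℝ := ((∑ j ∈ Finset.Icc 1 J, (lowExp n j).card : ℕ) : ℝ) with hL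
  have hN0 : 0 < N := by
    rw [hN]; exact_mod_cast hne.card_pos
  have hm0 : (0 : ℝ) < m := by exact_mod_cast hm
  have hmN : 0 < (m : ℝ) * N := mul_pos hm0 hN0
  by_contra hcon
  push Not at hcon
  set D : ℝ := J * N - L - n / c * (m * N) with hD
  have hD0 : 0 < D := by rw [hD]; linarith
  have hJL : 0 < J * N - L := by
    have : 0 ≤ (n : ℝ) / c * (m * N) := by positivity
    rw [hD] at hD0; linarith
  -- choose a large power of two
  obtain ⟨e, he⟩ := pow_unbounded_of_one_lt ((J * N - L) * (m * N) / (c * D)) (one_lt_two (α := ℝ))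
  set q : ℕ := 2 ^ e with hq
  have hqr : (q : ℝ) = 2 ^ e := by rw [hq]; push_cast; rfl
  have hq0 : (0 : ℝ) < q := by rw [hqr]; positivity
  set k : ℕ := ⌊c * q / (m * N)⌋₊ with hk
  have hk1 : (k : ℝ) ≤ c * q / (m * N) := Nat.floor_le (by positivity)
  have hk2 : c * q / (m * N) < k + 1 := Nat.lt_floor_add_one _
  have hfin := finite_ineq (F := ZMod 2) hn 2 e MonomialOrder.lex (hc.smul (m : ℝ)) U hne
    (fun u hu => mem_expSet.1 hu) k J (by
    rintro x ⟨y', ⟨y, hy, rfl⟩, hx⟩
    -- the point x + z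
    set θ : ℝ := k * (m * N) / q with hθ
    have hθ0 : 0 ≤ θ := by positivity
    have hθc : θ ≤ c := by
      rw [hθ, div_le_iff₀ hq0]
      calc (k : ℝ) * (m * N) ≤ c * q / (m * N) * (m * N) :=
            mul_le_mul_of_nonneg_right hk1 hmN.le
        _ = c * q := by field_simp
    have h1θ : 0 < 1 - θ := by linarith
    set a : Fin n → ℝ := fun i => (∑ v ∈ U, (v i : ℝ)) / (m * N) with ha
    set z' : Fin n → ℝ := fun i => (z i : ℝ) with hz'
    set y2 : Fin n → ℝ := z' + (θ / (1 - θ)) • (z' - a) with hy2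
    have hy2S : y2 ∈ interior S := by
      apply hr
      rw [Metric.mem_ball, dist_eq_norm, hy2, add_sub_cancel_left, norm_smul,
        Real.norm_of_nonneg (by positivity)]
      have hnorm : ‖z' - a‖ < (1 - c) * r / c := by
        rw [pi_norm_lt_iff (by
          have : 0 < 1 - c := by linarith
          positivity)]
        intro i
        rw [lt_div_iff₀ hc0, mul_comm]
        exact hclose i
      have h2 : θ / (1 - θ) ≤ c / (1 - c) := by
        rw [div_le_div_iff₀ h1θ (by linarith)]
        nlinarith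
      calc θ / (1 - θ) * ‖z' - a‖ ≤ c / (1 - c) * ‖z' - a‖ :=
            mul_le_mul_of_nonneg_right h2 (norm_nonneg _)
        _ < c / (1 - c) * ((1 - c) * r / c) := by
            apply mul_lt_mul_of_pos_left hnorm
            have : 0 < 1 - c := by linarith
            positivity
        _ = r := by
            have : (1 - c) ≠ 0 := by linarith
            field_simp
    have hmem := hc.combo_self_interior_mem_interior hy hy2S hθ0 h1θ (by ring)
    have heq : θ • y + (1 - θ) • y2 = fun i => ((x i + z i : ℤ) : ℝ) := by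
      ext i
      have hxi := hx i
      simp only [Pi.smul_apply, smul_eq_mul] at hxi
      simp only [Pi.add_apply, Pi.smul_apply, smul_eq_mul, hy2, Pi.sub_apply, hz', ha, hθ]
      push_cast
      have hxi' : (x i : ℝ) = k * (N * (m * y i) - ∑ u ∈ U, (u i : ℝ)) / q := by
        rw [eq_div_iff hq0.ne', mul_comm]
        exact_mod_cast hxi
      rw [hxi']
      have h1θ' : (1 : ℝ) - k * (m * N) / q ≠ 0 := by
        rw [← hθ]; exact h1θ.ne'
      have h3 : (1 - k * (m * N) / q) * ((z i : ℝ) + k * (m * N) / q / (1 - k * (m * N) / q) *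
          ((z i : ℝ) - (∑ v ∈ U, (v i : ℝ)) / (m * N))) = (1 - k * (m * N) / q) * (z i : ℝ) +
          k * (m * N) / q * ((z i : ℝ) - (∑ v ∈ U, (v i : ℝ)) / (m * N)) := by
        generalize hgen : (1 : ℝ) - k * (m * N) / q = g at h1θ' ⊢
        field_simp
      rw [h3]
      field_simp
      ring
    rw [heq] at hmem
    have h4 := hlat _ hmem (fun i => ⟨x i + z i, rfl⟩)
    ext i
    have h5 : ((x i + z i : ℤ) : ℝ) = (z i : ℝ) := congrFun h4 i
    have h6 : x i + z i = z i := by exact_mod_cast h5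
    simp only [Pi.zero_apply]
    omega)
  have hfin' : (k : ℝ) * (J * N) < n * q + k * L := by
    have : ((k * (J * U.card) : ℕ) : ℝ) < ((n * 2 ^ e +
        k * ∑ j ∈ Finset.Icc 1 J, (lowExp n j).card : ℕ) : ℝ) := by exact_mod_cast hfin
    rw [hL, hN, hq]
    push_cast at this ⊢
    linarith
  have h7 : (n : ℝ) * q ≤ k * (J * N - L) := by
    have h8 : (c * q / (m * N) - 1) * (J * N - L) ≤ k * (J * N - L) :=
      mul_le_mul_of_nonneg_right (by linarith) hJL.le
    have h9 : J * N - L = n / c * (m * N) + D := by rw [hD]; ring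
    have h10 : c * q / (m * N) * (J * N - L) = n * q + c * D * q / (m * N) := by
      rw [h9]; field_simp
    have h11 : J * N - L ≤ c * D * q / (m * N) := by
      rw [le_div_iff₀ hmN]
      rw [div_lt_iff₀ (by positivity), ← hqr] at he
      linarith
    linarith
  linarith

/-- **The volume bound** for a convex body in the nonnegative orthant whose centroid is its only
interior lattice point. -/
theorem core (hn : 0 < n) {S : Set (Fin n → ℝ)} (hS : IsCompact S) (hc : Convex ℝ S)
    (hpos : ∀ x ∈ S, ∀ i, 0 ≤ x i) (z : Fin n → ℤ) (hz : (fun i => (z i : ℝ)) ∈ interior S)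
    (hlat : ∀ x ∈ interior S, (∀ i, ∃ m : ℤ, x i = (m : ℝ)) → x = fun i => (z i : ℝ))
    (hbar : ∀ i, ∫ x in S, x i = (z i : ℝ) * (volume S).toReal) :
    (volume S).toReal ≤ ((n : ℝ) + 1) ^ n / (n.factorial : ℝ) := by
  have hb := hS.isBounded
  have hfr : volume (frontier S) = 0 := hc.addHaar_frontier volume
  have hSm := hS.measurableSet
  set V := (volume S).toReal with hV
  have hposI : 0 < volume (interior S) := isOpen_interior.measure_pos volume ⟨_, hz⟩
  have hV0 : 0 < V := ENNReal.toReal_pos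
    (lt_of_lt_of_le hposI (measure_mono interior_subset)).ne' hS.measure_lt_top.ne
  have hcard := tendsto_card hb hpos hSm hfr
  rw [← hV] at hcard
  have hbary : ∀ i, Tendsto (fun m : ℕ => (∑ v ∈ expSet S hb m, (v i : ℝ)) /
      ((m : ℝ) * ((expSet S hb m).card : ℝ))) atTop (𝓝 (z i : ℝ)) := by
    intro i
    have h1 := tendsto_sum hb hpos hSm hfr (G := fun x => x i) (continuous_apply i)
    rw [hbar i] at h1
    have h2 := h1.div hcard hV0.ne'
    rw [mul_div_cancel_right₀ _ hV0.ne'] at h2
    refine h2.congr' ?_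
    filter_upwards [eventually_gt_atTop 0] with m hm
    have hm0 : (0 : ℝ) < m := by exact_mod_cast hm
    simp only [Pi.smul_apply, smul_eq_mul, toReal, Pi.div_apply]
    rw [← Finset.mul_sum, div_div_div_cancel_right₀ (by positivity)]
    rw [inv_mul_eq_div, div_div]
  obtain ⟨r, hr0, hr⟩ := Metric.isOpen_iff.1 isOpen_interior _ hz
  have key : ∀ c : ℝ, 0 < c → c < 1 →
      ((n : ℝ) + 1) * V ≤ n / c * V + ((n : ℝ) + 1) ^ (n + 1) / ((n + 1).factorial : ℝ) := by
    intro c hc0 hc1
    have hlim1 : Tendsto (fun m : ℕ => ((n : ℝ) + 1) * (((expSet S hb m).card : ℝ) / (m : ℝ) ^ n))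
        atTop (𝓝 (((n : ℝ) + 1) * V)) := hcard.const_mul _
    have hlim2 : Tendsto (fun m : ℕ => (n : ℝ) / c * (((expSet S hb m).card : ℝ) / (m : ℝ) ^ n) +
        ((n : ℝ) / m + (n + 1)) ^ (n + 1) / ((n + 1).factorial : ℝ)) atTop
        (𝓝 (n / c * V + (0 + ((n : ℝ) + 1)) ^ (n + 1) / ((n + 1).factorial : ℝ))) := by
      refine (hcard.const_mul _).add (Tendsto.div_const (Tendsto.pow (Tendsto.add ?_
        tendsto_const_nhds) _) _)
      exact tendsto_const_div_atTop_nhds_zero_nat _
    rw [zero_add] at hlim2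
    refine le_of_tendsto_of_tendsto hlim1 hlim2 ?_
    have hclose : ∀ᶠ m : ℕ in atTop, ∀ i, c * |(z i : ℝ) - (∑ v ∈ expSet S hb m, (v i : ℝ)) /
      ((m : ℝ) * ((expSet S hb m).card : ℝ))| < (1 - c) * r := by
      rw [eventually_all]
      intro i
      have h1 : Tendsto (fun m : ℕ => c * |(z i : ℝ) - (∑ v ∈ expSet S hb m, (v i : ℝ)) /
          ((m : ℝ) * ((expSet S hb m).card : ℝ))|) atTop (𝓝 (c * |(z i : ℝ) - z i|)) :=
        ((tendsto_const_nhds.sub (hbary i)).abs).const_mul c
      rw [sub_self, abs_zero, mul_zero] at h1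
      have hpos : 0 < (1 - c) * r := mul_pos (by linarith) hr0
      exact h1.eventually (gt_mem_nhds hpos)
    have hne : ∀ᶠ m : ℕ in atTop, (expSet S hb m).Nonempty := by
      have h1 := hcard.eventually (lt_mem_nhds hV0)
      filter_upwards [h1] with m hm
      rw [← Finset.card_pos]
      by_contra hcon
      push Not at hcon
      have : (expSet S hb m).card = 0 := by omega
      rw [this] at hm
      simp at hm
    filter_upwards [hclose, hne, eventually_gt_atTop 0] with m h1 h2 hm
    have hm0 : (0 : ℝ) < m := by exact_mod_cast hm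
    have h3 := dilate_ineq hn hb hc z hlat hc0 hc1 hr hr0 hm h2 h1 ((n + 1) * m)
    have h4 := sum_card_lowExp_le hn ((n + 1) * m)
    have h5 := h3.trans (add_le_add_right h4 _)
    have hmp : (0 : ℝ) < (m : ℝ) ^ (n + 1) := by positivity
    have h6 := div_le_div_of_nonneg_right h5 hmp.le
    calc ((n : ℝ) + 1) * (((expSet S hb m).card : ℝ) / (m : ℝ) ^ n)
        = ((((n + 1) * m : ℕ) : ℝ) * ((expSet S hb m).card : ℝ)) / (m : ℝ) ^ (n + 1) := by
          push_cast
          rw [pow_succ]
          field_simp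
      _ ≤ _ := h6
      _ = _ := by
          rw [add_div]
          congr 1
          · rw [pow_succ]
            field_simp
          · push_cast
            rw [div_right_comm, ← div_pow]
            congr 2
            field_simp
  -- let c tend to 1
  have hlim : Tendsto (fun c : ℝ => n / c * V + ((n : ℝ) + 1) ^ (n + 1) /
      ((n + 1).factorial : ℝ)) (𝓝[<] 1)
      (𝓝 (n / 1 * V + ((n : ℝ) + 1) ^ (n + 1) / ((n + 1).factorial : ℝ))) := by
    apply tendsto_nhdsWithin_of_tendsto_nhds
    apply ContinuousAt.tendsto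
    have : (1 : ℝ) ≠ 0 := one_ne_zero
    fun_prop (disch := assumption)
  have hfinal := ge_of_tendsto hlim (by
    filter_upwards [Ioo_mem_nhdsLT (zero_lt_one (α := ℝ))] with c hc
    exact key c hc.1 hc.2)
  rw [div_one] at hfinal
  have h8 : V ≤ ((n : ℝ) + 1) ^ (n + 1) / ((n + 1).factorial : ℝ) := by linarith
  refine h8.trans (le_of_eq ?_)
  rw [Nat.factorial_succ, pow_succ]
  push_cast
  field_simp

end Pool.Agent.Lib.Helper13.Frob
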