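import Pool.Agent.Lib.Helper13.Frob.Finite

/-!
# Lattice points in the dilates of a convex body in the nonnegative orthant
-/

namespace Pool.Agent.Lib.Helper13.Frob

open MeasureTheory Filter Set
open scoped Pointwise Topology

variable {n : ℕ}

theorem toReal_injective : Function.Injective (toReal (n := n)) := by
  intro v w h
  ext i
  have := congrFun h i
  simp only [toReal] at this
  exact_mod_cast this

theorem finite_expSet {S : Set (Fin n → ℝ)} (hS : Bornology.IsBounded S) (m : ℕ) :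
    {v : Fin n →₀ ℕ | toReal v ∈ (m : ℝ) • S}.Finite := by
  obtain ⟨R, hR⟩ := (hS.smul₀ (m : ℝ)).subset_closedBall 0
  refine (Set.finite_Iic (Finsupp.equivFunOnFinite.symm fun _ : Fin n => ⌈R⌉₊)).subset ?_
  intro v hv
  have h1 := hR hv
  rw [mem_closedBall_zero_iff] at h1
  rw [Set.mem_Iic]
  intro i
  have h2 : (v i : ℝ) ≤ R := by
    have h3 := norm_le_pi_norm (toReal v) i
    have h4 : ‖toReal v i‖ = (v i : ℝ) := by
      rw [toReal, Real.norm_of_nonneg (Nat.cast_nonneg _)]
    rw [h4] at h3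
    exact h3.trans h1
  show v i ≤ ⌈R⌉₊
  exact_mod_cast h2.trans (Nat.le_ceil R)

/-- The exponents in the `m`-th dilate. -/
noncomputable def expSet (S : Set (Fin n → ℝ)) (hS : Bornology.IsBounded S) (m : ℕ) :
    Finset (Fin n →₀ ℕ) := (finite_expSet hS m).toFinset

theorem mem_expSet {S : Set (Fin n → ℝ)} {hS : Bornology.IsBounded S} {m : ℕ} {v : Fin n →₀ ℕ} :
    v ∈ expSet S hS m ↔ toReal v ∈ (m : ℝ) • S := by
  simp [expSet]

/-- The sums over the lattice points in `S ∩ (1/m) ℤⁿ`. -/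
theorem tsum_eq {S : Set (Fin n → ℝ)} (hS : Bornology.IsBounded S) (hpos : ∀ x ∈ S, ∀ i, 0 ≤ x i)
    {m : ℕ} (hm : 0 < m) (G : (Fin n → ℝ) → ℝ) :
    (∑' x : ↑(S ∩ (m : ℝ)⁻¹ •
      (Submodule.span ℤ (Set.range (Pi.basisFun ℝ (Fin n))) : Set (Fin n → ℝ))), G x) =
    ∑ v ∈ expSet S hS m, G ((m : ℝ)⁻¹ • toReal v) := by
  classical
  have hm' : (m : ℝ) ≠ 0 := by positivity
  have hset : (S ∩ (m : ℝ)⁻¹ •
      (Submodule.span ℤ (Set.range (Pi.basisFun ℝ (Fin n))) : Set (Fin n → ℝ))) =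
      ↑((expSet S hS m).image fun v => (m : ℝ)⁻¹ • toReal v) := by
    ext x
    rw [Finset.coe_image, Set.mem_image]
    constructor
    · rintro ⟨hxS, hxL⟩
      rw [Set.mem_inv_smul_set_iff₀ hm', SetLike.mem_coe,
        (Pi.basisFun ℝ (Fin n)).mem_span_iff_repr_mem ℤ] at hxL
      choose z hz using hxL
      have hz' : ∀ i, (z i : ℝ) = m * x i := by
        intro i
        have := hz i
        rw [Pi.basisFun_repr] at this
        simpa using this
      have hz0 : ∀ i, 0 ≤ z i := by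
        intro i
        have h1 : (0 : ℝ) ≤ (z i : ℝ) := by
          rw [hz']; exact mul_nonneg (Nat.cast_nonneg _) (hpos x hxS i)
        exact_mod_cast h1
      have h2 : toReal (Finsupp.equivFunOnFinite.symm fun i => (z i).toNat) = (m : ℝ) • x := by
        ext i
        simp only [toReal, Finsupp.equivFunOnFinite_symm_apply_apply, Pi.smul_apply, smul_eq_mul]
        rw [← hz' i]
        exact_mod_cast Int.toNat_of_nonneg (hz0 i)
      refine ⟨Finsupp.equivFunOnFinite.symm fun i => (z i).toNat, ?_, ?_⟩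
      · rw [Finset.mem_coe, mem_expSet, h2]
        exact Set.smul_mem_smul_set hxS
      · rw [h2, smul_smul, inv_mul_cancel₀ hm', one_smul]
    · rintro ⟨v, hv, rfl⟩
      rw [Finset.mem_coe, mem_expSet] at hv
      refine ⟨?_, ?_⟩
      · rw [Set.mem_smul_set_iff_inv_smul_mem₀ hm'] at hv
        exact hv
      · rw [Set.mem_inv_smul_set_iff₀ hm', smul_smul, mul_inv_cancel₀ hm', one_smul,
          SetLike.mem_coe, (Pi.basisFun ℝ (Fin n)).mem_span_iff_repr_mem ℤ]
        intro i
        exact ⟨(v i : ℤ), by simp [toReal]⟩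
  rw [hset, Finset.tsum_subtype' _ G, Finset.sum_image]
  intro v _ w _ h
  have h1 : toReal v = toReal w := by
    have := congrArg (fun x => (m : ℝ) • x) h
    simp only [smul_smul, mul_inv_cancel₀ hm', one_smul] at this
    exact this
  exact toReal_injective h1

theorem tendsto_sum {S : Set (Fin n → ℝ)} (hS : Bornology.IsBounded S)
    (hpos : ∀ x ∈ S, ∀ i, 0 ≤ x i) (hSm : MeasurableSet S) (hfr : volume (frontier S) = 0)
    {G : (Fin n → ℝ) → ℝ} (hG : Continuous G) :
    Tendsto (fun m : ℕ => (∑ v ∈ expSet S hS m, G ((m : ℝ)⁻¹ • toReal v)) / (m : ℝ) ^ n) atTop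
      (𝓝 (∫ x in S, G x)) := by
  have h := tendsto_tsum_div_pow_atTop_integral S G hG hS hSm hfr
  rw [Fintype.card_fin] at h
  refine h.congr' ?_
  filter_upwards [eventually_gt_atTop 0] with m hm
  rw [tsum_eq hS hpos hm]

theorem tendsto_card {S : Set (Fin n → ℝ)} (hS : Bornology.IsBounded S)
    (hpos : ∀ x ∈ S, ∀ i, 0 ≤ x i) (hSm : MeasurableSet S) (hfr : volume (frontier S) = 0) :
    Tendsto (fun m : ℕ => ((expSet S hS m).card : ℝ) / (m : ℝ) ^ n) atTop
      (𝓝 (volume S).toReal) := by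
  have h := tendsto_sum hS hpos hSm hfr (G := fun _ => 1) continuous_const
  simpa [Measure.real] using h

/-- The number of exponents of low degree. -/
theorem sum_card_lowExp_le (hn : 0 < n) (J : ℕ) :
    ((∑ j ∈ Finset.Icc 1 J, (lowExp n j).card : ℕ) : ℝ) ≤
      ((n + J : ℕ) : ℝ) ^ (n + 1) / ((n + 1).factorial : ℝ) := by
  obtain ⟨l, rfl⟩ : ∃ l, n = l + 1 := ⟨n - 1, by omega⟩
  have h1 : ∀ j, (lowExp (l + 1) (j + 1)).card ≤ (l + 1 + j).choose (l + 1) := by
    intro j
    refine (card_lowExp_le (l + 1) (j + 1)).trans (le_of_eq ?_)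
    have h2 : ∀ d ∈ Finset.range (j + 1), (l + 1 + d - 1).choose d = (d + l).choose l := by
      intro d _
      rw [show l + 1 + d - 1 = d + l by omega, Nat.choose_symm_add]
    rw [Finset.sum_congr rfl h2, Nat.sum_range_add_choose]
    congr 1
    ring
  have h2 : ∑ j ∈ Finset.Icc 1 J, (lowExp (l + 1) j).card ≤ (l + 1 + J).choose (l + 2) := by
    have h3 : ∑ j ∈ Finset.Icc 1 J, (lowExp (l + 1) j).card =
        ∑ j ∈ Finset.range J, (lowExp (l + 1) (j + 1)).card := by
      rw [Finset.range_eq_Ico, Finset.sum_Ico_add' (fun j => (lowExp (l + 1) j).card) 0 J 1]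
      rfl
    rw [h3]
    rcases Nat.eq_zero_or_pos J with rfl | hJ
    · simp
    · obtain ⟨r, rfl⟩ : ∃ r, J = r + 1 := ⟨J - 1, by omega⟩
      calc ∑ j ∈ Finset.range (r + 1), (lowExp (l + 1) (j + 1)).card
          ≤ ∑ j ∈ Finset.range (r + 1), (j + (l + 1)).choose (l + 1) := by
            refine Finset.sum_le_sum fun j _ => (h1 j).trans (le_of_eq ?_)
            rw [add_comm]
        _ = (r + (l + 1) + 1).choose (l + 1 + 1) := Nat.sum_range_add_choose _ _
        _ = _ := by congr 1; ring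
  calc ((∑ j ∈ Finset.Icc 1 J, (lowExp (l + 1) j).card : ℕ) : ℝ)
      ≤ (((l + 1 + J).choose (l + 2) : ℕ) : ℝ) := by exact_mod_cast h2
    _ ≤ _ := Nat.choose_le_pow_div _ _

end Pool.Agent.Lib.Helper13.Frob
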