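import Pool.Agent.Lib.Helper13.Frob.Lead

/-!
# Degree bounds for the order of vanishing
-/

set_option linter.unusedSectionVars false

namespace Pool.Agent.Lib.Helper13.Frob

open MvPolynomial
open scoped Pointwise

variable {n : ℕ} {F : Type*} [Field F]
variable {Γ : Type*} [AddCommGroup Γ] [LinearOrder Γ] [IsOrderedAddMonoid Γ]

theorem totalDegree_shift_le (a : F) (f : MvPolynomial (Fin n) F) :
    (shift a f).totalDegree ≤ f.totalDegree := by
  conv_lhs => rw [f.as_sum]
  rw [map_sum]
  refine (totalDegree_finsetSum _ _).trans (Finset.sup_le fun k hk => ?_)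
  have h1 : shift a (monomial k (coeff k f)) =
      C (coeff k f) * ∏ i, (X i + C a : MvPolynomial (Fin n) F) ^ k i := by
    rw [shift, aeval_monomial, Finsupp.prod_fintype _ _ (fun i => pow_zero _)]
    rfl
  rw [h1]
  refine (totalDegree_mul _ _).trans ?_
  rw [totalDegree_C, zero_add]
  refine (totalDegree_finsetProd _ _).trans ?_
  calc ∑ i, ((X i + C a : MvPolynomial (Fin n) F) ^ k i).totalDegree ≤ ∑ i, k i := by
        refine Finset.sum_le_sum fun i _ => ?_
        refine (totalDegree_pow _ _).trans ?_
        calc k i * (X i + C a : MvPolynomial (Fin n) F).totalDegree ≤ k i * 1 := by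
              apply Nat.mul_le_mul_left
              refine (totalDegree_add _ _).trans ?_
              simp
          _ = k i := mul_one _
    _ ≤ f.totalDegree := by
        have := le_totalDegree hk
        rwa [Finsupp.sum_fintype _ _ (fun _ => rfl)] at this

/-- The order of vanishing is at most the total degree. -/
theorem le_totalDegree_of_mem {f : MvPolynomial (Fin n) F} (hf : f ≠ 0) {j : ℕ}
    (h : f ∈ onePt n F ^ j) : j ≤ f.totalDegree := by
  have h0 : shift 1 f ≠ 0 := by
    intro h1
    apply hf
    rw [← shift_shift f, h1, map_zero]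
  obtain ⟨k, hk⟩ := support_nonempty.2 h0
  have h1 := support_shift_of_mem h k hk
  have h2 := le_totalDegree hk
  rw [Finsupp.sum_fintype _ _ (fun _ => rfl), ← Finsupp.degree_eq_sum] at h2
  exact h1.trans (h2.trans (totalDegree_shift_le _ _))

/-- Cancellation of a variable. -/
theorem mem_of_X_mul_mem {g : MvPolynomial (Fin n) F} {j : ℕ} {i : Fin n}
    (h : X i * g ∈ onePt n F ^ j) : g ∈ onePt n F ^ j := by
  obtain ⟨q, hq⟩ := sub_dvd_pow_sub_pow (1 : MvPolynomial (Fin n) F) (1 - X i) j
  have h1 : g = (1 - X i) ^ j * g + q * (X i * g) := by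
    rw [one_pow] at hq
    linear_combination g * hq
  rw [h1]
  refine Ideal.add_mem _ (Ideal.mul_mem_right _ _ ?_) (Ideal.mul_mem_left _ _ h)
  apply Ideal.pow_mem_pow
  have h2 : (1 - X i : MvPolynomial (Fin n) F) = -(X i - 1) := by ring
  rw [h2]
  exact neg_mem (Ideal.subset_span ⟨i, rfl⟩)

theorem mem_of_monomial_mul_mem {j : ℕ} (a : Fin n →₀ ℕ) : ∀ g : MvPolynomial (Fin n) F,
    monomial a 1 * g ∈ onePt n F ^ j → g ∈ onePt n F ^ j := by
  induction a using Finsupp.induction_linear with
  | zero => intro g h; simpa using h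
  | add a b ha hb =>
    intro g h
    apply hb
    apply ha
    rw [← mul_assoc, monomial_mul, one_mul]
    exact h
  | single i k =>
    induction k with
    | zero => intro g h; simpa using h
    | succ k ih =>
      intro g h
      apply ih
      apply mem_of_X_mul_mem (i := i)
      have h1 : (monomial (Finsupp.single i (k + 1)) (1 : F)) =
          X i * monomial (Finsupp.single i k) 1 := by
        rw [← X_pow_eq_monomial, ← X_pow_eq_monomial, pow_succ, mul_comm]
      rw [h1, mul_assoc] at h
      exact h

/-- The order of vanishing is bounded by the size of the support. -/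
theorem le_of_support_bound {f : MvPolynomial (Fin n) F} (hf : f ≠ 0) {j B : ℕ}
    (h : f ∈ onePt n F ^ j) (a : Fin n →₀ ℕ)
    (ha : ∀ v ∈ f.support, a ≤ v ∧ ∑ i, (v i - a i) ≤ B) : j ≤ B := by
  classical
  set g : MvPolynomial (Fin n) F := ∑ v ∈ f.support, monomial (v - a) (coeff v f) with hg
  have h1 : monomial a 1 * g = f := by
    rw [hg, Finset.mul_sum]
    conv_rhs => rw [f.as_sum]
    refine Finset.sum_congr rfl fun v hv => ?_
    rw [monomial_mul, one_mul, add_tsub_cancel_of_le (ha v hv).1]
  have hg0 : g ≠ 0 := by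
    intro h0
    rw [h0, mul_zero] at h1
    exact hf h1.symm
  have h2 : g ∈ onePt n F ^ j := mem_of_monomial_mul_mem a g (by rw [h1]; exact h)
  refine (le_totalDegree_of_mem hg0 h2).trans ?_
  rw [hg]
  refine (totalDegree_finsetSum _ _).trans (Finset.sup_le fun v hv => ?_)
  refine (totalDegree_monomial_le _ _).trans ?_
  rw [Finsupp.sum_fintype _ _ (fun _ => rfl)]
  exact (ha v hv).2

end Pool.Agent.Lib.Helper13.Frob
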