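import Pool.Agent.Lib.Helper13.Frob.Core

/-!
# Ehrhart's volume conjecture
-/

namespace Pool.Agent.Lib.Helper13.Frob

open MeasureTheory Filter Set
open scoped Pointwise Topology

variable {n : ℕ}

/-- Ehrhart's inequality for the integer lattice. -/
theorem ehrhart (hn : 0 < n) {K : Set (Fin n → ℝ)} (hK : IsCompact K) (hc : Convex ℝ K)
    (h0 : (0 : Fin n → ℝ) ∈ interior K) (hbar : ∫ x in K, x = 0)
    (hlat : ∀ x ∈ interior K, (∀ i, ∃ m : ℤ, x i = (m : ℝ)) → x = 0) :
    (volume K).toReal ≤ ((n : ℝ) + 1) ^ n / (n.factorial : ℝ) := by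
  obtain ⟨R, hR⟩ := hK.isBounded.subset_closedBall (0 : Fin n → ℝ)
  set T : ℕ := ⌈R⌉₊ with hT
  set t : Fin n → ℝ := fun _ => (T : ℝ) with ht
  set S : Set (Fin n → ℝ) := (fun x => x + t) '' K with hS
  have hmemS : ∀ x, x ∈ S ↔ x - t ∈ K := by
    intro x
    constructor
    · rintro ⟨y, hy, rfl⟩
      simpa using hy
    · intro h
      exact ⟨x - t, h, by simp⟩
  have hint : ∀ x, x ∈ interior S → x - t ∈ interior K := by
    intro x hx
    have h1 : interior S = (fun x => x + t) '' interior K :=
      ((Homeomorph.addRight t).image_interior K).symm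
    rw [h1] at hx
    obtain ⟨y, hy, rfl⟩ := hx
    simpa using hy
  have hint' : ∀ x, x - t ∈ interior K → x ∈ interior S := by
    intro x hx
    have h1 : interior S = (fun x => x + t) '' interior K :=
      ((Homeomorph.addRight t).image_interior K).symm
    rw [h1]
    exact ⟨x - t, hx, by simp⟩
  have hScomp : IsCompact S := hK.image (by fun_prop)
  have hSconv : Convex ℝ S := by
    have h1 := hc.translate t
    have h2 : (fun x => x + t) '' K = (fun x => t + x) '' K :=
      image_congr fun x _ => add_comm x t
    rw [hS, h2]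
    exact h1
  have hpos : ∀ x ∈ S, ∀ i, 0 ≤ x i := by
    intro x hx i
    have h1 := hR ((hmemS x).1 hx)
    rw [mem_closedBall_zero_iff] at h1
    have h2 := (norm_le_pi_norm (x - t) i).trans h1
    rw [Real.norm_eq_abs, Pi.sub_apply, abs_le] at h2
    have h3 : R ≤ T := Nat.le_ceil R
    simp only [ht] at h2
    linarith [h2.1]
  have hpre : (fun x => x + t) ⁻¹' S = K := by
    ext x
    rw [mem_preimage, hmemS]
    simp
  have hvol : volume S = volume K := by
    have := measure_preimage_add_right volume t S
    rw [hpre] at this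
    exact this.symm
  have hzint : (fun _ : Fin n => (((T : ℤ)) : ℝ)) ∈ interior S := by
    apply hint'
    have : (fun _ : Fin n => (((T : ℤ)) : ℝ)) - t = 0 := by
      ext i; simp [ht]
    rw [this]
    exact h0
  have hlatS : ∀ x ∈ interior S, (∀ i, ∃ m : ℤ, x i = (m : ℝ)) → x = fun _ => (((T : ℤ)) : ℝ) := by
    intro x hx hxi
    have h1 := hlat (x - t) (hint x hx) (fun i => by
      obtain ⟨m, hm⟩ := hxi i
      exact ⟨m - T, by simp [hm, ht]⟩)
    rw [sub_eq_zero] at h1
    rw [h1]
    ext i
    simp [ht]
  have hbarS : ∀ i, ∫ x in S, x i = (((T : ℤ)) : ℝ) * (volume S).toReal := by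
    intro i
    have h1 : ∫ x in S, x i = ∫ x in K, (x + t) i := by
      have h2 := (measurePreserving_add_right (volume : Measure (Fin n → ℝ)) t
        ).setIntegral_preimage_emb (MeasurableEquiv.addRight t).measurableEmbedding
        (fun x => x i) S
      rw [hpre] at h2
      exact h2.symm
    have hi : IntegrableOn (fun x : Fin n → ℝ => x) K volume :=
      continuous_id.continuousOn.integrableOn_compact hK
    have h3 : ∫ x in K, x i = 0 := by
      have h4 := (ContinuousLinearMap.proj (R := ℝ) (φ := fun _ : Fin n => ℝ) i).integral_comp_comm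
        hi
      rw [hbar, map_zero] at h4
      exact h4
    have hi1 : IntegrableOn (fun x : Fin n → ℝ => x i) K volume :=
      (continuous_apply i).continuousOn.integrableOn_compact hK
    have hi2 : IntegrableOn (fun _ : Fin n → ℝ => (T : ℝ)) K volume :=
      continuous_const.continuousOn.integrableOn_compact hK
    rw [h1]
    simp only [Pi.add_apply, ht]
    rw [integral_add hi1 hi2, h3, hvol]
    simp [Measure.real]
    ring
  have := core hn hScomp hSconv hpos (fun _ => (T : ℤ)) hzint hlatS hbarS
  rwa [hvol] at this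

end Pool.Agent.Lib.Helper13.Frob
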