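import Mathlib
import Pool.Agent.Lib.Helper13.Frob.Ehrhart

/-!
# Ehrhart's volume conjecture

A convex body in `ℝᵈ` with centroid `0` whose interior contains no point of the lattice `A ℤᵈ`
other than `0` has volume at most `(d+1)ᵈ / d! * |det A|`.

Idea of the proof (for the lattice `ℤᵈ`).  Fix a field `F` of characteristic `2`.  For a large
integer `m` let `V` be the space of the polynomials over `F` whose exponents are the lattice points
of `m K` (after a translation), and let `I` be the ideal of the point `(1, …, 1)`.  For each lattice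
point `u` of `m K` let `s u ∈ V` be a polynomial with leading exponent `u` and the largest possible
order of vanishing `j u` at `(1, …, 1)`.  At most `binom (d+j-1) d` of the numbers `j u` are less
than `j`.  Let `G` be a power of the product of all `s u` and `w` its leading exponent.  If
`q = 2 ^ e` is large enough, then, because `0` is the centroid and the only interior lattice point
of `K`, no exponent of `G` other than `w` is congruent to `w` modulo `q`.  But if `G ∈ I ^ (d q)`,
then the image of `G` in the group algebra of `(ℤ / q)ᵈ` is zero, since there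
`(x i - 1) ^ q = x i ^ q - 1 = 0`, and so the sum of the coefficients of `G` over each residue
class modulo `q` is zero.  Hence the order of vanishing of `G` is less than `d q`, which bounds the
sum of the `j u` from above.  As `m → ∞`, this gives the volume bound.
-/

open MeasureTheory Set

namespace Pool.Agent.Lib.Helper13.Frob

theorem ehrhart_lattice (d : ℕ) (hd : 1 ≤ d) (A : Matrix (Fin d) (Fin d) ℝ) (hA : A.det ≠ 0)
    (K : Set (Fin d → ℝ)) (hK : IsCompact K) (hc : Convex ℝ K) (hne : (interior K).Nonempty)
    (hz : (volume K).toReal⁻¹ • ∫ x in K, x = 0)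
    (hlat : interior K ∩ {x | ∃ z : Fin d → ℤ, x = A.mulVec fun i => (z i : ℝ)} = {0}) :
    (volume K).toReal ≤ ((d : ℝ) + 1) ^ d / (d.factorial : ℝ) * |A.det| := by
  have hposI : 0 < volume (interior K) := isOpen_interior.measure_pos volume hne
  have hpos : 0 < volume K := lt_of_lt_of_le hposI (measure_mono interior_subset)
  have hreal : 0 < (volume K).toReal := ENNReal.toReal_pos hpos.ne' hK.measure_lt_top.ne
  have hbar : ∫ x in K, x = 0 := by
    rcases smul_eq_zero.1 hz with h | h
    · exact absurd h (inv_ne_zero hreal.ne')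
    · exact h
  have h0 : (0 : Fin d → ℝ) ∈ interior K := by
    have : (0 : Fin d → ℝ) ∈ interior K ∩
        {x | ∃ z : Fin d → ℤ, x = A.mulVec fun i => (z i : ℝ)} := by rw [hlat]; rfl
    exact this.1
  have hdet : LinearMap.det (Matrix.toLin' A) ≠ 0 := by rwa [LinearMap.det_toLin']
  set f : (Fin d → ℝ) ≃L[ℝ] (Fin d → ℝ) :=
    (LinearMap.equivOfDetNeZero (Matrix.toLin' A) hdet).toContinuousLinearEquiv with hf
  have hfA : ∀ x, f x = A.mulVec x := fun x => rfl
  set K' : Set (Fin d → ℝ) := f ⁻¹' K with hK'
  have himg : f '' K' = K := image_preimage_eq _ f.surjective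
  have hint : interior K' = f ⁻¹' interior K := (f.toHomeomorph.preimage_interior K).symm
  have hvol : volume K' = ENNReal.ofReal |(A.det)⁻¹| * volume K := by
    have := Measure.addHaar_preimage_linearMap (volume : Measure (Fin d → ℝ)) hdet K
    rw [LinearMap.det_toLin'] at this
    exact this
  have hK'c : IsCompact K' := f.toHomeomorph.isCompact_preimage.2 hK
  have hK'conv : Convex ℝ K' := hc.linear_preimage (f : (Fin d → ℝ) →ₗ[ℝ] (Fin d → ℝ))
  have hbar' : ∫ x in K', x = 0 := by
    have h1 := integral_image_eq_integral_abs_det_fderiv_smul (volume : Measure (Fin d → ℝ))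
      hK'c.measurableSet (f := f) (f' := fun _ => (f : (Fin d → ℝ) →L[ℝ] (Fin d → ℝ)))
      (fun x _ => (f : (Fin d → ℝ) →L[ℝ] (Fin d → ℝ)).hasFDerivAt.hasFDerivWithinAt)
      f.injective.injOn (fun x => x)
    rw [himg, hbar, integral_smul] at h1
    have h2 : |(f : (Fin d → ℝ) →L[ℝ] (Fin d → ℝ)).det| ≠ 0 := by
      rw [abs_ne_zero]
      have : (f : (Fin d → ℝ) →L[ℝ] (Fin d → ℝ)).det = LinearMap.det (Matrix.toLin' A) := rfl
      rw [this]
      exact hdet
    have h3 : ∫ x in K', f x = 0 := by
      rcases smul_eq_zero.1 h1.symm with h | h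
      · exact absurd h h2
      · exact h
    have hi : IntegrableOn (fun x : Fin d → ℝ => x) K' volume :=
      continuous_id.continuousOn.integrableOn_compact hK'c
    have h4 := (f : (Fin d → ℝ) →L[ℝ] (Fin d → ℝ)).integral_comp_comm hi
    have h5 : f (∫ x in K', x) = 0 := h4.symm.trans h3
    exact f.injective (by rw [h5, map_zero])
  have hlat' : ∀ x ∈ interior K', (∀ i, ∃ m : ℤ, x i = (m : ℝ)) → x = 0 := by
    intro x hx hxi
    choose z hz using hxi
    rw [hint] at hx
    have h1 : f x ∈ interior K ∩
        {x | ∃ z : Fin d → ℤ, x = A.mulVec fun i => (z i : ℝ)} := by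
      refine ⟨hx, z, ?_⟩
      rw [hfA]
      congr 1
      ext i
      exact hz i
    rw [hlat, mem_singleton_iff] at h1
    exact f.injective (by rw [h1, map_zero])
  have h0' : (0 : Fin d → ℝ) ∈ interior K' := by
    rw [hint, mem_preimage, map_zero]
    exact h0
  have hmain := Pool.Agent.Lib.Helper13.Frob.ehrhart hd hK'c hK'conv h0' hbar' hlat'
  rw [hvol, ENNReal.toReal_mul, ENNReal.toReal_ofReal (abs_nonneg _), abs_inv] at hmain
  have hApos : 0 < |A.det| := abs_pos.2 hA
  rwa [inv_mul_le_iff₀ hApos, mul_comm] at hmain

end Pool.Agent.Lib.Helper13.Frob
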