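import Pool.Agent.Lib.Helper13.Frob.Key

/-!
# Order of vanishing at `(1, …, 1)` and leading exponents
-/

namespace Pool.Agent.Lib.Helper13.Frob

open MvPolynomial

variable {n : ℕ} {F : Type*} [Field F]

/-- Translation of the variables. -/
noncomputable def shift (a : F) : MvPolynomial (Fin n) F →ₐ[F] MvPolynomial (Fin n) F :=
  aeval fun i => X i + C a

theorem shift_shift (f : MvPolynomial (Fin n) F) : shift (-1) (shift 1 f) = f := by
  have : (shift (-1 : F)).comp (shift (n := n) (1 : F)) = AlgHom.id F _ := by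
    ext i
    simp [shift]
  exact DFunLike.congr_fun this f

theorem shift_monomial_mem (k : Fin n →₀ ℕ) (c : F) {j : ℕ} (hj : j ≤ k.degree) :
    shift (-1) (monomial k c) ∈ onePt n F ^ j := by
  have h1 : shift (-1) (monomial k c) = C c * ∏ i, (X i - 1 : MvPolynomial (Fin n) F) ^ k i := by
    rw [shift, aeval_monomial, Finsupp.prod_fintype _ _ (fun i => pow_zero _)]
    simp [sub_eq_add_neg]
  rw [h1]
  apply Ideal.mul_mem_left
  have h2 : ∏ i, (X i - 1 : MvPolynomial (Fin n) F) ^ k i ∈ ∏ i, onePt n F ^ k i := by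
    apply Ideal.prod_mem_prod
    intro i _
    apply Ideal.pow_mem_pow
    exact Ideal.subset_span ⟨i, rfl⟩
  rw [Finset.prod_pow_eq_pow_sum] at h2
  refine Ideal.pow_le_pow_right ?_ h2
  rw [Finsupp.degree_eq_sum] at hj
  exact hj

theorem mem_onePt_pow {f : MvPolynomial (Fin n) F} {j : ℕ}
    (h : ∀ k ∈ (shift 1 f).support, j ≤ k.degree) : f ∈ onePt n F ^ j := by
  rw [← shift_shift f, (shift 1 f).as_sum, map_sum]
  exact Ideal.sum_mem _ fun k hk => shift_monomial_mem k _ (h k hk)

/-- The exponents of degree less than `j`. -/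
noncomputable def lowExp (n j : ℕ) : Finset (Fin n →₀ ℕ) :=
  (Finset.range j).biUnion fun d => Finset.univ.finsuppAntidiag d

theorem mem_lowExp {j : ℕ} {k : Fin n →₀ ℕ} : k ∈ lowExp n j ↔ k.degree < j := by
  simp [lowExp, Finset.mem_finsuppAntidiag, Finsupp.degree_eq_sum]

theorem card_lowExp_le (n j : ℕ) :
    (lowExp n j).card ≤ ∑ d ∈ Finset.range j, (n + d - 1).choose d := by
  refine Finset.card_biUnion_le.trans (Finset.sum_le_sum fun d _ => ?_)
  rw [Finset.card_finsuppAntidiag_nat_eq_choose, Finset.card_univ, Fintype.card_fin]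

/-- The leading exponents of the nonzero polynomials supported in `U` which lie in the `j`-th power
of the ideal of `(1, …, 1)`. -/
noncomputable def leadSet (F : Type*) [Field F] (mo : MonomialOrder (Fin n))
    (U : Finset (Fin n →₀ ℕ)) (j : ℕ) : Finset (Fin n →₀ ℕ) := by
  classical exact U.filter fun u => ∃ f : MvPolynomial (Fin n) F,
    f ≠ 0 ∧ f.support ⊆ U ∧ f ∈ onePt n F ^ j ∧ mo.degree f = u

theorem mem_leadSet {mo : MonomialOrder (Fin n)} {U : Finset (Fin n →₀ ℕ)} {j : ℕ}
    {u : Fin n →₀ ℕ} : u ∈ leadSet F mo U j ↔ ∃ f : MvPolynomial (Fin n) F,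
      f ≠ 0 ∧ f.support ⊆ U ∧ f ∈ onePt n F ^ j ∧ mo.degree f = u := by
  classical
  rw [leadSet, Finset.mem_filter, and_iff_right_iff_imp]
  rintro ⟨f, h1, h2, _, rfl⟩
  exact h2 (mo.degree_mem_support h1)

theorem leadSet_antitone {mo : MonomialOrder (Fin n)} {U : Finset (Fin n →₀ ℕ)} {i j : ℕ}
    (h : i ≤ j) : leadSet F mo U j ⊆ leadSet F mo U i := by
  intro u hu
  rw [mem_leadSet] at hu ⊢
  obtain ⟨f, h1, h2, h3, h4⟩ := hu
  exact ⟨f, h1, h2, Ideal.pow_le_pow_right h h3, h4⟩

/-- The polynomial with given coefficients at the exponents in `U`. -/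
noncomputable def polyOf (F : Type*) [Field F] (U : Finset (Fin n →₀ ℕ)) :
    (U → F) →ₗ[F] MvPolynomial (Fin n) F :=
  ∑ u : U, (monomial u.1).comp (LinearMap.proj u)

theorem polyOf_apply (U : Finset (Fin n →₀ ℕ)) (a : U → F) :
    polyOf F U a = ∑ u : U, monomial u.1 (a u) := by
  simp [polyOf]

theorem coeff_polyOf (U : Finset (Fin n →₀ ℕ)) (a : U → F) (u : U) :
    coeff u.1 (polyOf F U a) = a u := by
  classical
  rw [polyOf_apply, coeff_sum, Finset.sum_eq_single u]
  · simp
  · intro b _ hb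
    rw [coeff_monomial, if_neg]
    intro h
    exact hb (Subtype.ext h)
  · simp

theorem support_polyOf (U : Finset (Fin n →₀ ℕ)) (a : U → F) :
    (polyOf F U a).support ⊆ U := by
  classical
  intro v hv
  by_contra hvU
  rw [mem_support_iff] at hv
  apply hv
  rw [polyOf_apply, coeff_sum]
  apply Finset.sum_eq_zero
  intro b _
  rw [coeff_monomial, if_neg]
  rintro rfl
  exact hvU b.2

theorem card_le_leadSet (mo : MonomialOrder (Fin n)) (U : Finset (Fin n →₀ ℕ)) (j : ℕ) :
    U.card ≤ (leadSet F mo U j).card + (lowExp n j).card := by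
  classical
  by_contra hcon
  push Not at hcon
  let Φ : (U → F) →ₗ[F] ((leadSet F mo U j → F) × (lowExp n j → F)) :=
    { toFun := fun a => (fun u => coeff u.1 (polyOf F U a),
        fun k => coeff k.1 (shift 1 (polyOf F U a)))
      map_add' := fun a b => by ext <;> simp
      map_smul' := fun c a => by ext <;> simp }
  have hker : LinearMap.ker Φ ≠ ⊥ := by
    apply LinearMap.ker_ne_bot_of_finrank_lt
    rw [Module.finrank_prod]
    simpa using hcon
  obtain ⟨a, ha, ha0⟩ := Submodule.exists_mem_ne_zero_of_ne_bot hker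
  rw [LinearMap.mem_ker] at ha
  have hne : polyOf F U a ≠ 0 := by
    intro h
    apply ha0
    ext u
    rw [← coeff_polyOf U a u, h]
    simp
  have hmem : polyOf F U a ∈ onePt n F ^ j := by
    apply mem_onePt_pow
    intro k hk
    by_contra hlt
    push Not at hlt
    rw [mem_support_iff] at hk
    apply hk
    exact congrFun (congrArg Prod.snd ha) ⟨k, mem_lowExp.2 hlt⟩
  have hlead : mo.degree (polyOf F U a) ∈ leadSet F mo U j :=
    mem_leadSet.2 ⟨polyOf F U a, hne, support_polyOf U a, hmem, rfl⟩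
  have h0 : coeff (mo.degree (polyOf F U a)) (polyOf F U a) = 0 :=
    congrFun (congrArg Prod.fst ha) ⟨_, hlead⟩
  exact (mo.coeff_degree_ne_zero_iff).2 hne h0

/-- For each `u ∈ U` there are a vanishing order `d u` and a polynomial `s u` supported in `U` with
leading exponent `u` and order of vanishing at least `d u`, and the sum of the numbers `d u` is
large. -/
theorem exists_orders (mo : MonomialOrder (Fin n)) (U : Finset (Fin n →₀ ℕ)) (J : ℕ) :
    ∃ (d : (Fin n →₀ ℕ) → ℕ) (s : (Fin n →₀ ℕ) → MvPolynomial (Fin n) F),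
      (∀ u ∈ U, s u ≠ 0 ∧ (s u).support ⊆ U ∧ s u ∈ onePt n F ^ d u ∧ mo.degree (s u) = u) ∧
      J * U.card ≤ ∑ u ∈ U, d u + ∑ j ∈ Finset.Icc 1 J, (lowExp n j).card := by
  classical
  set d : (Fin n →₀ ℕ) → ℕ := fun u =>
    ((Finset.Icc 1 J).filter fun j => u ∈ leadSet F mo U j).card with hd
  have h1 : ∀ u ∈ U, u ∈ leadSet F mo U (d u) := by
    intro u hu
    rcases Finset.eq_empty_or_nonempty ((Finset.Icc 1 J).filter fun j => u ∈ leadSet F mo U j)
      with h | h
    · have : d u = 0 := by rw [hd]; simp only; rw [h, Finset.card_empty]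
      rw [this, mem_leadSet]
      refine ⟨monomial u 1, by simp, ?_, by simp, ?_⟩
      · rw [support_monomial, if_neg one_ne_zero]
        simpa using hu
      · rw [mo.degree_monomial, if_neg one_ne_zero]
    · have hM := Finset.max'_mem _ h
      have hMu := (Finset.mem_filter.1 hM).2
      refine leadSet_antitone ?_ hMu
      calc d u ≤ (Finset.Icc 1 (Finset.max' _ h)).card := by
            apply Finset.card_le_card
            intro j hj
            rw [Finset.mem_Icc]
            exact ⟨(Finset.mem_Icc.1 (Finset.mem_filter.1 hj).1).1, Finset.le_max' _ _ hj⟩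
        _ = _ := by simp
  have h2 : ∀ u : Fin n →₀ ℕ, ∃ f : MvPolynomial (Fin n) F, u ∈ U →
      f ≠ 0 ∧ f.support ⊆ U ∧ f ∈ onePt n F ^ d u ∧ mo.degree f = u := by
    intro u
    by_cases hu : u ∈ U
    · obtain ⟨f, hf⟩ := mem_leadSet.1 (h1 u hu)
      exact ⟨f, fun _ => hf⟩
    · exact ⟨0, fun h => absurd h hu⟩
  choose s hs using h2
  refine ⟨d, s, hs, ?_⟩
  have h3 : ∑ u ∈ U, d u = ∑ j ∈ Finset.Icc 1 J, (leadSet F mo U j).card := by
    simp only [hd, Finset.card_filter]
    rw [Finset.sum_comm]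
    refine Finset.sum_congr rfl fun j _ => ?_
    rw [← Finset.card_filter]
    congr 1
    ext u
    rw [Finset.mem_filter, and_iff_right_iff_imp]
    intro hu
    obtain ⟨f, hf1, hf2, _, rfl⟩ := mem_leadSet.1 hu
    exact hf2 (mo.degree_mem_support hf1)
  rw [h3, ← Finset.sum_add_distrib]
  calc J * U.card = ∑ j ∈ Finset.Icc 1 J, U.card := by simp
    _ ≤ _ := Finset.sum_le_sum fun j _ => card_le_leadSet mo U j

end Pool.Agent.Lib.Helper13.Frob
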