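import Pool.Agent.Lib.Helper13.Frob.Filt

/-!
# The finite inequality
-/

namespace Pool.Agent.Lib.Helper13.Frob

open MvPolynomial
open scoped Pointwise

variable {n : ℕ} {F : Type*} [Field F]

/-- An exponent as a real vector. -/
def toReal (v : Fin n →₀ ℕ) : Fin n → ℝ := fun i => (v i : ℝ)

theorem toReal_add (v w : Fin n →₀ ℕ) : toReal (v + w) = toReal v + toReal w := by
  ext i; simp [toReal]

theorem toReal_zero : toReal (0 : Fin n →₀ ℕ) = 0 := by
  ext i; simp [toReal]

/-- All exponents of `f` lie in `S`. -/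
def SuppIn (S : Set (Fin n → ℝ)) (f : MvPolynomial (Fin n) F) : Prop :=
  ∀ v ∈ f.support, toReal v ∈ S

theorem suppIn_one {S : Set (Fin n → ℝ)} (hS : S.Nonempty) :
    SuppIn (((0 : ℕ) : ℝ) • S) (1 : MvPolynomial (Fin n) F) := by
  intro v hv
  have h : v = 0 := by
    rw [mem_support_iff] at hv
    by_contra hne
    apply hv
    rw [coeff_one, if_neg (Ne.symm hne)]
  rw [h, toReal_zero, Nat.cast_zero, Set.zero_smul_set hS]
  exact Set.mem_zero.2 rfl

theorem SuppIn.mul {S : Set (Fin n → ℝ)} (hS : Convex ℝ S) {a b : ℕ}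
    {f g : MvPolynomial (Fin n) F} (hf : SuppIn ((a : ℝ) • S) f) (hg : SuppIn ((b : ℝ) • S) g) :
    SuppIn (((a + b : ℕ) : ℝ) • S) (f * g) := by
  classical
  intro v hv
  have h1 := support_mul f g hv
  rw [Finset.mem_add] at h1
  obtain ⟨x, hx, y, hy, rfl⟩ := h1
  rw [toReal_add, Nat.cast_add, hS.add_smul (Nat.cast_nonneg _) (Nat.cast_nonneg _)]
  exact Set.add_mem_add (hf x hx) (hg y hy)

theorem SuppIn.pow {S : Set (Fin n → ℝ)} (hS : Convex ℝ S) (hne : S.Nonempty) {a : ℕ}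
    {f : MvPolynomial (Fin n) F} (hf : SuppIn ((a : ℝ) • S) f) (k : ℕ) :
    SuppIn (((k * a : ℕ) : ℝ) • S) (f ^ k) := by
  induction k with
  | zero => simpa using suppIn_one (F := F) hne
  | succ k ih =>
    rw [pow_succ, show (k + 1) * a = k * a + a by ring]
    exact ih.mul hS hf

theorem SuppIn.prod {ι : Type*} {S : Set (Fin n → ℝ)} (hS : Convex ℝ S) (hne : S.Nonempty)
    (U : Finset ι) (s : ι → MvPolynomial (Fin n) F) (hs : ∀ u ∈ U, SuppIn S (s u)) :
    SuppIn ((U.card : ℝ) • S) (∏ u ∈ U, s u) := by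
  classical
  induction U using Finset.induction_on with
  | empty => simpa using suppIn_one (F := F) hne
  | insert u U hu ih =>
    rw [Finset.prod_insert hu, Finset.card_insert_of_notMem hu, add_comm U.card 1]
    refine SuppIn.mul hS ?_ (ih fun v hv => hs v (Finset.mem_insert_of_mem hv))
    simpa using hs u (Finset.mem_insert_self _ _)

/-- **Basic bound for the order of vanishing.** -/
theorem order_lt (hn : 0 < n) (p e : ℕ) [Fact p.Prime] [CharP F p] (mo : MonomialOrder (Fin n))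
    {S : Set (Fin n → ℝ)} (hS : Convex ℝ S) {f : MvPolynomial (Fin n) F} (hf : f ≠ 0)
    (hfS : SuppIn S f) {j : ℕ} (hj : f ∈ onePt n F ^ j) (k : ℕ)
    (H : ∀ x : Fin n → ℤ, (∃ y ∈ S, ∀ i, ((p ^ e : ℕ) : ℝ) * (x i : ℝ) =
      (k : ℝ) * (y i - (mo.degree f i : ℝ))) → x = 0) :
    k * j < n * p ^ e := by
  classical
  by_contra hcon
  push Not at hcon
  have hp : 0 < p ^ e := pow_pos (Fact.out (p := p.Prime)).pos e
  have hSne : S.Nonempty := ⟨_, hfS _ (mo.degree_mem_support hf)⟩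
  set w := mo.degree f with hw
  have h1 : f ^ k ∈ onePt n F ^ (n * p ^ e) := by
    refine Ideal.pow_le_pow_right hcon ?_
    rw [mul_comm, pow_mul]
    exact Ideal.pow_mem_pow hj k
  have h2 := classSum_eq_zero hn p e (k • w) h1
  rw [classSum_eq] at h2
  have h3 : ∀ v ∈ (f ^ k).support, (∀ i, v i ≡ (k • w) i [MOD p ^ e]) → v = k • w := by
    intro v hv hmod
    have hv1 : toReal v ∈ (k : ℝ) • S := by
      have := SuppIn.pow hS hSne (a := 1) (f := f) (by simpa using hfS) k v hv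
      simpa using this
    obtain ⟨y, hy, hyv⟩ := hv1
    have hdiv : ∀ i, ((p ^ e : ℕ) : ℤ) ∣ (v i : ℤ) - ((k • w) i : ℕ) := fun i =>
      (Nat.modEq_iff_dvd.1 (hmod i).symm)
    choose x hx using hdiv
    have hx0 : x = 0 := by
      apply H x
      refine ⟨y, hy, fun i => ?_⟩
      have h4 : ((p ^ e : ℕ) : ℝ) * (x i : ℝ) = (v i : ℝ) - ((k • w) i : ℕ) := by
        have := hx i
        have h5 : (((v i : ℤ) - ((k • w) i : ℕ) : ℤ) : ℝ) = (((p ^ e : ℕ) : ℤ) * x i : ℤ) := by
          rw [this]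
        push_cast at h5 ⊢
        linarith
      rw [h4]
      have h6 : (v i : ℝ) = (k : ℝ) * y i := by
        have := congrFun hyv i
        simp only [toReal, Pi.smul_apply, smul_eq_mul] at this
        exact this.symm
      rw [h6]
      simp
      ring
    ext i
    have := hx i
    rw [hx0] at this
    simp only [Pi.zero_apply, mul_zero] at this
    omega
  have h4 : ∑ v ∈ (f ^ k).support,
      (by classical exact if (∀ i, v i ≡ (k • w) i [MOD p ^ e]) then coeff v (f ^ k) else 0) =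
      coeff (k • w) (f ^ k) := by
    rw [Finset.sum_eq_single (k • w)]
    · rw [if_pos fun i => Nat.ModEq.refl _]
    · intro v hv hne
      rw [if_neg]
      intro h
      exact hne (h3 v hv h)
    · intro h
      rw [notMem_support_iff] at h
      simp [h]
  have h5 : coeff (k • w) (f ^ k) ≠ 0 := by
    rw [hw, mo.coeff_pow_nsmul_degree]
    exact pow_ne_zero _ ((mo.leadingCoeff_ne_zero_iff).2 hf)
  apply h5
  rw [← h4]
  convert h2

/-- **The finite inequality.** -/
theorem finite_ineq (hn : 0 < n) (p e : ℕ) [Fact p.Prime] [CharP F p] (mo : MonomialOrder (Fin n))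
    {S : Set (Fin n → ℝ)} (hS : Convex ℝ S) (U : Finset (Fin n →₀ ℕ)) (hUne : U.Nonempty)
    (hU : ∀ u ∈ U, toReal u ∈ S) (k J : ℕ)
    (H : ∀ x : Fin n → ℤ, (∃ y ∈ S, ∀ i, ((p ^ e : ℕ) : ℝ) * (x i : ℝ) =
      (k : ℝ) * ((U.card : ℝ) * y i - ∑ u ∈ U, (u i : ℝ))) → x = 0) :
    k * (J * U.card) < n * p ^ e + k * ∑ j ∈ Finset.Icc 1 J, (lowExp n j).card := by
  classical
  obtain ⟨d, s, hs, hd⟩ := exists_orders (F := F) mo U J
  have hSne : S.Nonempty := by
    obtain ⟨u, hu⟩ := hUne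
    exact ⟨_, hU u hu⟩
  set G := ∏ u ∈ U, s u with hG
  have hG0 : G ≠ 0 := Finset.prod_ne_zero_iff.2 fun u hu => (hs u hu).1
  have hGS : SuppIn ((U.card : ℝ) • S) G := by
    apply SuppIn.prod hS hSne
    intro u hu v hv
    exact hU v ((hs u hu).2.1 hv)
  have hGI : G ∈ onePt n F ^ (∑ u ∈ U, d u) := by
    rw [← Finset.prod_pow_eq_pow_sum]
    exact Ideal.prod_mem_prod fun u hu => (hs u hu).2.2.1
  have hdeg : mo.degree G = ∑ u ∈ U, u := by
    rw [hG, mo.degree_prod fun u hu => (hs u hu).1]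
    exact Finset.sum_congr rfl fun u hu => (hs u hu).2.2.2
  have hfin := order_lt hn p e mo (hS.smul _) hG0 hGS hGI k (by
    rintro x ⟨y, ⟨z, hz, rfl⟩, hy⟩
    apply H x
    refine ⟨z, hz, fun i => ?_⟩
    rw [hy i, hdeg]
    simp [Finsupp.finsetSum_apply])
  calc k * (J * U.card) ≤ k * (∑ u ∈ U, d u + ∑ j ∈ Finset.Icc 1 J, (lowExp n j).card) :=
        Nat.mul_le_mul_left k hd
    _ < _ := by rw [mul_add]; exact Nat.add_lt_add_right hfin _

end Pool.Agent.Lib.Helper13.Frob
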