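import Mathlib

/-!
# A vanishing lemma for polynomials over `F_p`

If a polynomial `g` over a field of characteristic `p` lies in the `(n q)`-th power of the ideal of
the point `(1, …, 1)`, with `q = p ^ e`, then for each residue class modulo `q` the sum of the
coefficients of `g` over the exponents in this class is zero.
-/

namespace Pool.Agent.Lib.Helper13.Frob

open MvPolynomial

/-- In a commutative ring, a high power of a sum of principal ideals lies in the sum of the ideals
generated by the powers of the generators. -/
theorem iSup_span_pow_le {R ι : Type*} [CommRing R] (a : ι → R) (q : ℕ) (s : Finset ι)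
    (hs : s.Nonempty) :
    (⨆ i ∈ s, Ideal.span {a i}) ^ (s.card * q) ≤ ⨆ i ∈ s, Ideal.span {a i ^ q} := by
  classical
  induction hs using Finset.Nonempty.cons_induction with
  | singleton i =>
    simp [Ideal.span_singleton_pow]
  | cons i s hi hs ih =>
    rw [Finset.cons_eq_insert, Finset.card_insert_of_notMem hi, Finset.iSup_insert,
      Finset.iSup_insert, show (s.card + 1) * q = q + s.card * q by ring]
    refine Ideal.sup_pow_add_le_pow_sup_pow.trans (sup_le_sup ?_ ih)
    rw [Ideal.span_singleton_pow]

variable {n : ℕ} {F : Type*} [Field F]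

/-- The ideal of the point `(1, …, 1)`. -/
noncomputable def onePt (n : ℕ) (F : Type*) [Field F] : Ideal (MvPolynomial (Fin n) F) :=
  Ideal.span (Set.range fun i => X i - 1)

theorem onePt_eq_iSup : onePt n F = ⨆ i ∈ (Finset.univ : Finset (Fin n)),
    Ideal.span {(X i - 1 : MvPolynomial (Fin n) F)} := by
  unfold onePt
  rw [← Set.iUnion_singleton_eq_range, Ideal.span_iUnion]
  simp

/-- The sum of the coefficients over the exponents congruent to `w` modulo `q`. -/
noncomputable def classSum (q : ℕ) (w : Fin n →₀ ℕ) :
    MvPolynomial (Fin n) F →ₗ[F] F :=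
  (basisMonomials (Fin n) F).constr F
    (fun v => by classical exact if (∀ i, v i ≡ w i [MOD q]) then (1 : F) else 0)

theorem classSum_monomial (q : ℕ) (w v : Fin n →₀ ℕ) (c : F) :
    classSum q w (monomial v c) = by classical exact if (∀ i, v i ≡ w i [MOD q]) then c else 0 := by
  classical
  have h : monomial v c = c • (basisMonomials (Fin n) F) v := by
    simp [coe_basisMonomials, smul_monomial]
  rw [h, map_smul, classSum, Module.Basis.constr_basis]
  split_ifs <;> simp

theorem classSum_eq (q : ℕ) (w : Fin n →₀ ℕ) (g : MvPolynomial (Fin n) F) :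
    classSum q w g = ∑ v ∈ g.support,
      (by classical exact if (∀ i, v i ≡ w i [MOD q]) then coeff v g else 0) := by
  conv_lhs => rw [g.as_sum]
  rw [map_sum]
  refine Finset.sum_congr rfl fun v _ => ?_
  rw [classSum_monomial]

theorem classSum_X_pow_mul (q : ℕ) (w : Fin n →₀ ℕ) (i : Fin n) (h : MvPolynomial (Fin n) F) :
    classSum q w (X i ^ q * h) = classSum q w h := by
  classical
  induction h using MvPolynomial.induction_on' with
  | monomial v c =>
    rw [X_pow_eq_monomial, monomial_mul, one_mul, classSum_monomial, classSum_monomial]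
    refine if_congr ?_ rfl rfl
    refine forall_congr' fun j => ?_
    rw [Finsupp.add_apply, Finsupp.single_apply]
    split_ifs
    · exact ⟨fun h => (Nat.ModEq.symm (by simp [Nat.ModEq])).trans h,
        fun h => (by simp [Nat.ModEq] : q + v j ≡ v j [MOD q]).trans h⟩
    · rw [zero_add]
  | add p r hp hr => rw [mul_add, map_add, map_add, hp, hr]

/-- The vanishing lemma. -/
theorem classSum_eq_zero (hn : 0 < n) (p e : ℕ) [Fact p.Prime] [CharP F p] (w : Fin n →₀ ℕ)
    {g : MvPolynomial (Fin n) F} (hg : g ∈ onePt n F ^ (n * p ^ e)) :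
    classSum (p ^ e) w g = 0 := by
  classical
  set q := p ^ e with hq
  have hne : (Finset.univ : Finset (Fin n)).Nonempty := ⟨⟨0, hn⟩, Finset.mem_univ _⟩
  have h1 := iSup_span_pow_le (fun i : Fin n => (X i - 1 : MvPolynomial (Fin n) F)) q
    Finset.univ hne
  rw [← onePt_eq_iSup, Finset.card_univ, Fintype.card_fin] at h1
  have h2 : (⨆ i ∈ (Finset.univ : Finset (Fin n)),
      Ideal.span {(X i - 1 : MvPolynomial (Fin n) F) ^ q}) =
      Ideal.span (Set.range fun i : Fin n => (X i ^ q - 1 : MvPolynomial (Fin n) F)) := by
    rw [← Set.iUnion_singleton_eq_range, Ideal.span_iUnion]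
    simp only [Finset.mem_univ, iSup_pos]
    refine iSup_congr fun i => ?_
    rw [hq, sub_pow_char_pow, one_pow]
  rw [h2] at h1
  have h3 : ∀ x ∈ Ideal.span (Set.range fun i : Fin n => (X i ^ q - 1 : MvPolynomial (Fin n) F)),
      ∀ a : MvPolynomial (Fin n) F, classSum q w (a * x) = 0 := by
    intro x hx
    induction hx using Submodule.span_induction with
    | mem x hx =>
      obtain ⟨i, rfl⟩ := hx
      intro a
      have := classSum_X_pow_mul q w i a
      simp only
      rw [mul_sub, mul_one, map_sub, mul_comm a, this, sub_self]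
    | zero => simp
    | add x y _ _ hx hy =>
      intro a
      rw [mul_add, map_add, hx, hy, add_zero]
    | smul b x _ hx =>
      intro a
      rw [smul_eq_mul, ← mul_assoc]
      exact hx _
  simpa using h3 g (h1 hg) 1

end Pool.Agent.Lib.Helper13.Frob
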