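import Pool.Agent.Lib.Helper13.Frob.Count

/-!
# Leading exponents for an arbitrary linear order given by an additive injective map
-/

set_option linter.unusedSectionVars false

namespace Pool.Agent.Lib.Helper13.Frob

open MvPolynomial
open scoped Pointwise

variable {n : ℕ} {F : Type*} [Field F]
variable {Γ : Type*} [AddCommGroup Γ] [LinearOrder Γ] [IsOrderedAddMonoid Γ]

/-- `w` is the leading exponent of `f`. -/
def IsLead (μ : (Fin n →₀ ℕ) →+ Γ) (f : MvPolynomial (Fin n) F) (w : Fin n →₀ ℕ) : Prop :=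
  w ∈ f.support ∧ ∀ v ∈ f.support, μ v ≤ μ w

theorem exists_isLead (μ : (Fin n →₀ ℕ) →+ Γ) {f : MvPolynomial (Fin n) F} (hf : f ≠ 0) :
    ∃ w, IsLead μ f w :=
  f.support.exists_max_image μ (support_nonempty.2 hf)

theorem IsLead.ne_zero {μ : (Fin n →₀ ℕ) →+ Γ} {f : MvPolynomial (Fin n) F} {w : Fin n →₀ ℕ}
    (h : IsLead μ f w) : f ≠ 0 := support_nonempty.1 ⟨w, h.1⟩

theorem isLead_one (μ : (Fin n →₀ ℕ) →+ Γ) : IsLead μ (1 : MvPolynomial (Fin n) F) 0 := by
  classical
  have h : (1 : MvPolynomial (Fin n) F).support = {0} := by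
    ext v
    rw [mem_support_iff, coeff_one, Finset.mem_singleton]
    constructor
    · intro h; by_contra hne; exact h (if_neg (Ne.symm hne))
    · rintro rfl; simp
  constructor
  · rw [h]; simp
  · intro v hv
    rw [h, Finset.mem_singleton] at hv
    rw [hv]

theorem IsLead.mul {μ : (Fin n →₀ ℕ) →+ Γ} (hμ : Function.Injective μ)
    {f g : MvPolynomial (Fin n) F} {a b : Fin n →₀ ℕ} (hf : IsLead μ f a) (hg : IsLead μ g b) :
    IsLead μ (f * g) (a + b) := by
  classical
  constructor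
  · rw [mem_support_iff, coeff_mul, Finset.sum_eq_single (a, b)]
    · exact mul_ne_zero (mem_support_iff.1 hf.1) (mem_support_iff.1 hg.1)
    · rintro ⟨x, y⟩ hxy hne
      rw [Finset.HasAntidiagonal.mem_antidiagonal] at hxy
      simp only at hxy ⊢
      by_contra hcon
      have hx : x ∈ f.support := mem_support_iff.2 (left_ne_zero_of_mul hcon)
      have hy : y ∈ g.support := mem_support_iff.2 (right_ne_zero_of_mul hcon)
      have h1 := hf.2 x hx
      have h2 := hg.2 y hy
      have h3 : μ x + μ y = μ a + μ b := by rw [← map_add, ← map_add, hxy]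
      have h4 : μ x = μ a := le_antisymm h1 (by
        by_contra hlt
        push Not at hlt
        have := add_lt_add_of_lt_of_le hlt h2
        rw [h3] at this
        exact lt_irrefl _ this)
      have h5 : μ y = μ b := by
        rw [h4] at h3
        exact add_left_cancel h3
      apply hne
      rw [hμ h4, hμ h5]
    · intro h
      exfalso
      apply h
      rw [Finset.HasAntidiagonal.mem_antidiagonal]
  · intro v hv
    have h1 := support_mul f g hv
    rw [Finset.mem_add] at h1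
    obtain ⟨x, hx, y, hy, rfl⟩ := h1
    rw [map_add, map_add]
    exact add_le_add (hf.2 x hx) (hg.2 y hy)

theorem IsLead.pow {μ : (Fin n →₀ ℕ) →+ Γ} (hμ : Function.Injective μ)
    {f : MvPolynomial (Fin n) F} {a : Fin n →₀ ℕ} (hf : IsLead μ f a) (k : ℕ) :
    IsLead μ (f ^ k) (k • a) := by
  induction k with
  | zero => simpa using isLead_one (F := F) μ
  | succ k ih =>
    rw [pow_succ, succ_nsmul]
    exact ih.mul hμ hf

theorem IsLead.prod {ι : Type*} {μ : (Fin n →₀ ℕ) →+ Γ} (hμ : Function.Injective μ)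
    (U : Finset ι) {s : ι → MvPolynomial (Fin n) F} {a : ι → (Fin n →₀ ℕ)}
    (hs : ∀ u ∈ U, IsLead μ (s u) (a u)) :
    IsLead μ (∏ u ∈ U, s u) (∑ u ∈ U, a u) := by
  classical
  induction U using Finset.induction_on with
  | empty => simpa using isLead_one (F := F) μ
  | insert u U hu ih =>
    rw [Finset.prod_insert hu, Finset.sum_insert hu]
    exact (hs u (Finset.mem_insert_self _ _)).mul hμ
      (ih fun v hv => hs v (Finset.mem_insert_of_mem hv))

theorem SuppIn.prod_pow {ι : Type*} {S : Set (Fin n → ℝ)} (hS : Convex ℝ S) (hne : S.Nonempty)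
    (U : Finset ι) (s : ι → MvPolynomial (Fin n) F) (k : ι → ℕ) (hs : ∀ u ∈ U, SuppIn S (s u)) :
    SuppIn (((∑ u ∈ U, k u : ℕ) : ℝ) • S) (∏ u ∈ U, s u ^ k u) := by
  classical
  induction U using Finset.induction_on with
  | empty => simpa using suppIn_one (F := F) hne
  | insert u U hu ih =>
    rw [Finset.prod_insert hu, Finset.sum_insert hu]
    refine SuppIn.mul hS ?_ (ih fun v hv => hs v (Finset.mem_insert_of_mem hv))
    have h1 := SuppIn.pow hS hne (a := 1) (f := s u)
      (by simpa using hs u (Finset.mem_insert_self _ _)) (k u)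
    simpa using h1

/-- The basic bound for the order of vanishing. -/
theorem order_lt' (hn : 0 < n) (p e : ℕ) [Fact p.Prime] [CharP F p] {μ : (Fin n →₀ ℕ) →+ Γ}
    (hμ : Function.Injective μ) {S : Set (Fin n → ℝ)} (hS : Convex ℝ S)
    {f : MvPolynomial (Fin n) F} {w : Fin n →₀ ℕ} (hw : IsLead μ f w)
    (hfS : SuppIn S f) {j : ℕ} (hj : f ∈ onePt n F ^ j) (k : ℕ)
    (H : ∀ x : Fin n → ℤ, (∃ y ∈ S, ∀ i, ((p ^ e : ℕ) : ℝ) * (x i : ℝ) =
      (k : ℝ) * (y i - (w i : ℝ))) → x = 0) :
    k * j < n * p ^ e := by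
  classical
  by_contra hcon
  push Not at hcon
  have hp : 0 < p ^ e := pow_pos (Fact.out (p := p.Prime)).pos e
  have hSne : S.Nonempty := ⟨_, hfS _ hw.1⟩
  have h1 : f ^ k ∈ onePt n F ^ (n * p ^ e) := by
    refine Ideal.pow_le_pow_right hcon ?_
    rw [mul_comm, pow_mul]
    exact Ideal.pow_mem_pow hj k
  have h2 := classSum_eq_zero hn p e (k • w) h1
  rw [classSum_eq] at h2
  have h3 : ∀ v ∈ (f ^ k).support, (∀ i, v i ≡ (k • w) i [MOD p ^ e]) → v = k • w := by
    intro v hv hmod
    have hv1 : toReal v ∈ (k : ℝ) • S := by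
      have := SuppIn.pow hS hSne (a := 1) (f := f) (by simpa using hfS) k v hv
      simpa using this
    obtain ⟨y, hy, hyv⟩ := hv1
    have hdiv : ∀ i, ((p ^ e : ℕ) : ℤ) ∣ (v i : ℤ) - ((k • w) i : ℕ) := fun i =>
      (Nat.modEq_iff_dvd.1 (hmod i).symm)
    choose x hx using hdiv
    have hx0 : x = 0 := by
      apply H x
      refine ⟨y, hy, fun i => ?_⟩
      have h4 : ((p ^ e : ℕ) : ℝ) * (x i : ℝ) = (v i : ℝ) - ((k • w) i : ℕ) := by
        have := hx i
        have h5 : (((v i : ℤ) - ((k • w) i : ℕ) : ℤ) : ℝ) = (((p ^ e : ℕ) : ℤ) * x i : ℤ) := by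
          rw [this]
        push_cast at h5 ⊢
        linarith
      rw [h4]
      have h6 : (v i : ℝ) = (k : ℝ) * y i := by
        have := congrFun hyv i
        simp only [toReal, Pi.smul_apply, smul_eq_mul] at this
        exact this.symm
      rw [h6]
      simp
      ring
    ext i
    have := hx i
    rw [hx0] at this
    simp only [Pi.zero_apply, mul_zero] at this
    omega
  have h4 : ∑ v ∈ (f ^ k).support,
      (by classical exact if (∀ i, v i ≡ (k • w) i [MOD p ^ e]) then coeff v (f ^ k) else 0) =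
      coeff (k • w) (f ^ k) := by
    rw [Finset.sum_eq_single (k • w)]
    · rw [if_pos fun i => Nat.ModEq.refl _]
    · intro v hv hne
      rw [if_neg]
      intro h
      exact hne (h3 v hv h)
    · intro h
      rw [notMem_support_iff] at h
      simp [h]
  have h5 : coeff (k • w) (f ^ k) ≠ 0 := mem_support_iff.1 (hw.pow hμ k).1
  apply h5
  rw [← h4]
  convert h2

/-- The asymptotic form of the basic bound. -/
theorem order_le (hn : 0 < n) {μ : (Fin n →₀ ℕ) →+ Γ}
    (hμ : Function.Injective μ) {S P : Set (Fin n → ℝ)} (hS : Convex ℝ S)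
    {f : MvPolynomial (Fin n) (ZMod 2)} {w : Fin n →₀ ℕ} (hw : IsLead μ f w)
    (hfS : SuppIn S f) {j : ℕ} (hj : f ∈ onePt n (ZMod 2) ^ j) {c : ℝ} (hc : 0 < c)
    (hP : ∀ x ∈ P, ∀ θ : ℝ, 0 ≤ θ → θ ≤ 1 → θ • x ∈ P)
    (hPlat : ∀ x : Fin n → ℤ, (fun i => (x i : ℝ)) ∈ P → x = 0)
    (hSP : ∀ y ∈ S, c • (y - toReal w) ∈ P) :
    c * j ≤ n := by
  by_contra hcon
  push Not at hcon
  obtain ⟨e, he⟩ := pow_unbounded_of_one_lt ((j : ℝ) / (c * j - n)) (one_lt_two (α := ℝ))
  set q : ℕ := 2 ^ e with hq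
  have hqr : (q : ℝ) = 2 ^ e := by rw [hq]; push_cast; rfl
  have hq0 : (0 : ℝ) < q := by rw [hqr]; positivity
  set k : ℕ := ⌊c * q⌋₊ with hk
  have hk1 : (k : ℝ) ≤ c * q := Nat.floor_le (by positivity)
  have hk2 : c * q < k + 1 := Nat.lt_floor_add_one _
  have hfin := order_lt' (F := ZMod 2) hn 2 e hμ hS hw hfS hj k (by
    rintro x ⟨y, hy, hx⟩
    apply hPlat
    have h1 := hP _ (hSP y hy) (k / (c * q)) (by positivity) ((div_le_one (by positivity)).2 hk1)
    convert h1 using 1
    ext i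
    have hxi : (q : ℝ) * (x i : ℝ) = k * (y i - w i) := by exact_mod_cast hx i
    simp only [Pi.smul_apply, Pi.sub_apply, smul_eq_mul, toReal]
    field_simp
    linarith)
  have hfin' : (k : ℝ) * j < n * q := by exact_mod_cast hfin
  rw [div_lt_iff₀ (by linarith), ← hqr] at he
  nlinarith [(Nat.cast_nonneg j : (0 : ℝ) ≤ (j : ℝ))]

/-! ### Orders of vanishing and degrees -/

theorem support_shift_of_mem {f : MvPolynomial (Fin n) F} {j : ℕ} (h : f ∈ onePt n F ^ j) :
    ∀ k ∈ (shift 1 f).support, j ≤ k.degree := by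
  set φ : MvPolynomial (Fin n) F →+* MvPolynomial (Fin n) F := (shift (n := n) (1 : F)).toRingHom
    with hφ
  have h1 : φ f ∈ (onePt n F ^ j).map φ := Ideal.mem_map_of_mem φ h
  rw [Ideal.map_pow] at h1
  have h2 : (onePt n F).map φ ≤ idealOfVars (Fin n) F := by
    rw [onePt, Ideal.map_span, Ideal.span_le]
    rintro _ ⟨_, ⟨i, rfl⟩, rfl⟩
    have : φ (X i - 1) = X i := by
      simp [hφ, shift]
    rw [this]
    exact Ideal.subset_span ⟨i, rfl⟩
  exact fun k hk => (mem_pow_idealOfVars_iff _ _).1 (Ideal.pow_right_mono h2 j h1) k hk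

end Pool.Agent.Lib.Helper13.Frob
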