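import Pool.Agent.Lib.Helper13.Frob.Deg

/-!
# The orders of vanishing attached to the points of a finite set of exponents
-/

set_option linter.unusedSectionVars false

namespace Pool.Agent.Lib.Helper13.Frob

open MvPolynomial
open scoped Pointwise

variable {n : ℕ} {F : Type*} [Field F]
variable {Γ : Type*} [AddCommGroup Γ] [LinearOrder Γ] [IsOrderedAddMonoid Γ]

/-- `f` witnesses that `u` is the leading exponent of a polynomial supported in `U` with order of
vanishing at least `j`. -/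
def Wit (μ : (Fin n →₀ ℕ) →+ Γ) (U : Finset (Fin n →₀ ℕ)) (j : ℕ) (u : Fin n →₀ ℕ)
    (f : MvPolynomial (Fin n) F) : Prop :=
  f.support ⊆ U ∧ f ∈ onePt n F ^ j ∧ IsLead μ f u

theorem Wit.mono {μ : (Fin n →₀ ℕ) →+ Γ} {U : Finset (Fin n →₀ ℕ)} {i j : ℕ}
    {u : Fin n →₀ ℕ} {f : MvPolynomial (Fin n) F} (h : Wit μ U j u f) (hij : i ≤ j) :
    Wit μ U i u f :=
  ⟨h.1, Ideal.pow_le_pow_right hij h.2.1, h.2.2⟩

theorem card_le_of_wit (μ : (Fin n →₀ ℕ) →+ Γ) (U : Finset (Fin n →₀ ℕ)) (j : ℕ)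
    (L : Finset (Fin n →₀ ℕ)) (hL : ∀ u, ∀ f : MvPolynomial (Fin n) F, Wit μ U j u f → u ∈ L) :
    U.card ≤ L.card + (lowExp n j).card := by
  classical
  by_contra hcon
  push Not at hcon
  let Φ : (U → F) →ₗ[F] ((L → F) × (lowExp n j → F)) :=
    { toFun := fun a => (fun u => coeff u.1 (polyOf F U a),
        fun k => coeff k.1 (shift 1 (polyOf F U a)))
      map_add' := fun a b => by ext <;> simp
      map_smul' := fun c a => by ext <;> simp }
  have hker : LinearMap.ker Φ ≠ ⊥ := by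
    apply LinearMap.ker_ne_bot_of_finrank_lt
    rw [Module.finrank_prod]
    simpa using hcon
  obtain ⟨a, ha, ha0⟩ := Submodule.exists_mem_ne_zero_of_ne_bot hker
  rw [LinearMap.mem_ker] at ha
  have hne : polyOf F U a ≠ 0 := by
    intro h
    apply ha0
    ext u
    rw [← coeff_polyOf U a u, h]
    simp
  have hmem : polyOf F U a ∈ onePt n F ^ j := by
    apply mem_onePt_pow
    intro k hk
    by_contra hlt
    push Not at hlt
    rw [mem_support_iff] at hk
    apply hk
    exact congrFun (congrArg Prod.snd ha) ⟨k, mem_lowExp.2 hlt⟩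
  obtain ⟨w, hw⟩ := exists_isLead μ hne
  have hlead : w ∈ L := hL w _ ⟨support_polyOf U a, hmem, hw⟩
  have h0 : coeff w (polyOf F U a) = 0 :=
    congrFun (congrArg Prod.fst ha) ⟨_, hlead⟩
  exact mem_support_iff.1 hw.1 h0

/-- For each `u ∈ U` the largest order of vanishing. -/
theorem exists_ord (F : Type*) [Field F] (μ : (Fin n →₀ ℕ) →+ Γ)
    (U : Finset (Fin n →₀ ℕ)) :
    ∃ d : (Fin n →₀ ℕ) → ℕ,
      (∀ u ∈ U, ∃ f : MvPolynomial (Fin n) F, Wit μ U (d u) u f) ∧
      (∀ u, ∀ j, ∀ f : MvPolynomial (Fin n) F, Wit μ U j u f → j ≤ d u) := by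
  classical
  set B : ℕ := U.sup fun v => ∑ i, v i with hB
  have hbound : ∀ u, ∀ j, ∀ f : MvPolynomial (Fin n) F, Wit μ U j u f → j ≤ B := by
    intro u j f hf
    refine le_of_support_bound hf.2.2.ne_zero hf.2.1 0 fun v hv => ⟨bot_le, ?_⟩
    have := Finset.le_sup (f := fun v : Fin n →₀ ℕ => ∑ i, v i) (hf.1 hv)
    simpa using this
  refine ⟨fun u => Nat.findGreatest (fun j => ∃ f : MvPolynomial (Fin n) F, Wit μ U j u f) B,
    ?_, ?_⟩
  · intro u hu
    have h0 : ∃ f : MvPolynomial (Fin n) F, Wit μ U 0 u f := by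
      refine ⟨monomial u 1, ?_, by simp, ?_⟩
      · rw [support_monomial, if_neg one_ne_zero]
        simpa using hu
      · constructor
        · rw [support_monomial, if_neg one_ne_zero]; simp
        · intro v hv
          rw [support_monomial, if_neg one_ne_zero, Finset.mem_singleton] at hv
          rw [hv]
    exact Nat.findGreatest_spec (P := fun j => ∃ f : MvPolynomial (Fin n) F, Wit μ U j u f)
      (Nat.zero_le B) h0
  · intro u j f hf
    exact Nat.le_findGreatest (hbound u j f hf) ⟨f, hf⟩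

theorem card_lowExp_le_choose (hn : 0 < n) (J : ℕ) (hJ : 0 < J) :
    (lowExp n J).card ≤ (n + J - 1).choose n := by
  obtain ⟨l, rfl⟩ : ∃ l, n = l + 1 := ⟨n - 1, by omega⟩
  obtain ⟨j, rfl⟩ : ∃ j, J = j + 1 := ⟨J - 1, by omega⟩
  refine (card_lowExp_le (l + 1) (j + 1)).trans (le_of_eq ?_)
  have h2 : ∀ d ∈ Finset.range (j + 1), (l + 1 + d - 1).choose d = (d + l).choose l := by
    intro d _
    rw [show l + 1 + d - 1 = d + l by omega, Nat.choose_symm_add]
  rw [Finset.sum_congr rfl h2, Nat.sum_range_add_choose]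
  congr 1
  omega

theorem card_filter_ord (hn : 0 < n) {μ : (Fin n →₀ ℕ) →+ Γ} {U : Finset (Fin n →₀ ℕ)}
    {d : (Fin n →₀ ℕ) → ℕ}
    (hd : ∀ u, ∀ j, ∀ f : MvPolynomial (Fin n) F, Wit μ U j u f → j ≤ d u) (J : ℕ) :
    (U.filter fun u => d u < J).card ≤ (n + J - 1).choose n := by
  classical
  rcases Nat.eq_zero_or_pos J with rfl | hJ
  · simp
  refine le_trans ?_ (card_lowExp_le_choose hn J hJ)
  have h1 := card_le_of_wit (F := F) μ U J (U.filter fun u => J ≤ d u) (by
    intro u f hf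
    rw [Finset.mem_filter]
    exact ⟨hf.1 hf.2.2.1, hd u J f hf⟩)
  have h2 : (U.filter fun u => d u < J).card + (U.filter fun u => ¬ d u < J).card = U.card :=
    Finset.card_filter_add_card_filter_not _
  have h3 : (U.filter fun u => ¬ d u < J) = U.filter fun u => J ≤ d u := by
    congr 1; ext u; exact not_lt
  rw [h3] at h2
  omega

end Pool.Agent.Lib.Helper13.Frob
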