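import Pool.Agent.Lib.Helper13.Frob.Orders

/-!
# Orders of vanishing attached to the lattice points of all dilates of a convex body
-/

set_option linter.unusedSectionVars false

namespace Pool.Agent.Lib.Helper13.Frob

open MvPolynomial MeasureTheory Filter Set
open scoped Pointwise Topology

variable {n : ℕ}

theorem SuppIn.prod_pow_fam {F : Type*} [Field F] {ι : Type*} {S : Set (Fin n → ℝ)}
    (hS : Convex ℝ S) (hne : S.Nonempty) (U : Finset ι) (s : ι → MvPolynomial (Fin n) F)
    (m k : ι → ℕ) (hs : ∀ i ∈ U, SuppIn ((m i : ℝ) • S) (s i)) :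
    SuppIn (((∑ i ∈ U, k i * m i : ℕ) : ℝ) • S) (∏ i ∈ U, s i ^ k i) := by
  classical
  induction U using Finset.induction_on with
  | empty => simpa using suppIn_one (F := F) hne
  | insert u U hu ih =>
    rw [Finset.prod_insert hu, Finset.sum_insert hu]
    exact SuppIn.mul hS ((hs u (Finset.mem_insert_self _ _)).pow hS hne (k u))
      (ih fun v hv => hs v (Finset.mem_insert_of_mem hv))

/-- **The orders of vanishing attached to the lattice points of the dilates `m K`.** -/
theorem exists_orders_fam (hn : 0 < n) {K : Set (Fin n → ℝ)} (hK : IsCompact K)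
    (hc : Convex ℝ K) (h0 : (0 : Fin n → ℝ) ∈ interior K)
    (hlat : ∀ x ∈ interior K, (∀ i, ∃ z : ℤ, x i = (z : ℝ)) → x = 0)
    {Γ : Type*} [AddCommGroup Γ] [LinearOrder Γ] [IsOrderedAddMonoid Γ]
    (ν : (Fin n → ℤ) →+ Γ) (hν : Function.Injective ν) :
    ∃ j : ℕ → (Fin n → ℤ) → ℕ,
      (∀ m, 0 < m → ∀ J : ℕ,
        ((latPts K m).filter fun u => j m u < J).card ≤ (n + J - 1).choose n) ∧
      (∀ {ι : Type} (t : Finset ι) (m : ι → ℕ) (u : ι → Fin n → ℤ) (k : ι → ℕ),
        (∀ i ∈ t, 0 < m i ∧ u i ∈ latPts K (m i)) → 0 < ∑ i ∈ t, k i → ∀ c : ℝ, 0 < c →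
        (∀ y ∈ K, c • (y - (fun l => (∑ i ∈ t, (k i : ℝ) * (u i l : ℝ)) /
          (∑ i ∈ t, (k i : ℝ) * (m i : ℝ)))) ∈ interior K) →
        c * ∑ i ∈ t, (k i : ℝ) * (j (m i) (u i) : ℝ) ≤
          (n : ℝ) * ∑ i ∈ t, (k i : ℝ) * (m i : ℝ)) ∧
      (∀ m, 0 < m → ∀ u ∈ latPts K m, ∀ D : ℕ,
        (∀ v ∈ latPts K m, ν v ≤ ν u → ∀ i, |v i - u i| ≤ (D : ℤ)) → j m u ≤ 2 * n * D) := by
  classical
  have hb := hK.isBounded
  obtain ⟨R, hR⟩ := hb.subset_closedBall (0 : Fin n → ℝ)
  set T : ℕ := ⌈R⌉₊ with hT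
  have hTK : ∀ x ∈ K, ∀ i, 0 ≤ x i + T := by
    intro x hx i
    have h1 := hR hx
    rw [mem_closedBall_zero_iff] at h1
    have h2 := (norm_le_pi_norm x i).trans (h1.trans (Nat.le_ceil R))
    rw [Real.norm_eq_abs, abs_le] at h2
    linarith [h2.1]
  have hmem : ∀ m u, u ∈ latPts K m ↔ (fun i => (u i : ℝ)) ∈ (m : ℝ) • K :=
    fun m u => mem_latPts hb
  have hmem' : ∀ m u, u ∈ latPts K m → ∃ x ∈ K, ∀ i, (u i : ℝ) = m * x i := by
    intro m u hu
    obtain ⟨x, hx, hxu⟩ := (hmem m u).1 hu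
    exact ⟨x, hx, fun i => (congrFun hxu i).symm⟩
  -- the translated exponents
  set e : ℕ → (Fin n → ℤ) → (Fin n →₀ ℕ) := fun m u =>
    Finsupp.equivFunOnFinite.symm fun i => (u i + m * T).toNat with he
  have he1 : ∀ m, ∀ u ∈ latPts K m, ∀ i, ((e m u i : ℕ) : ℤ) = u i + m * T := by
    intro m u hu i
    obtain ⟨x, hx, hxu⟩ := hmem' m u hu
    have h1 : (0 : ℝ) ≤ ((u i + m * T : ℤ) : ℝ) := by
      push_cast
      rw [hxu i]
      have := hTK x hx i
      have h2 : (m : ℝ) * x i + m * T = m * (x i + T) := by ring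
      rw [h2]; positivity
    have h2 : 0 ≤ u i + m * T := by exact_mod_cast h1
    simp only [he, Finsupp.equivFunOnFinite_symm_apply_apply]
    exact Int.toNat_of_nonneg h2
  have heinj : ∀ m, ∀ u ∈ latPts K m, ∀ v ∈ latPts K m, e m u = e m v → u = v := by
    intro m u hu v hv h
    ext i
    have h1 := he1 m u hu i
    have h2 := he1 m v hv i
    rw [h] at h1
    omega
  set U : ℕ → Finset (Fin n →₀ ℕ) := fun m => (latPts K m).image (e m) with hU
  set μ : (Fin n →₀ ℕ) →+ Γ :=
    { toFun := fun v => ν fun i => (v i : ℤ)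
      map_zero' := by
        have : (fun i => (((0 : Fin n →₀ ℕ) i : ℕ) : ℤ)) = 0 := by ext i; simp
        rw [this, map_zero]
      map_add' := by
        intro v w
        rw [← map_add]
        congr 1 } with hμdef
  have hμ : Function.Injective μ := by
    intro v w h
    have h1 := hν h
    ext i
    have := congrFun h1 i
    exact_mod_cast this
  have hμe : ∀ m, ∀ u ∈ latPts K m, μ (e m u) = ν u + ν (fun _ => ((m * T : ℕ) : ℤ)) := by
    intro m u hu
    rw [← map_add]
    show ν (fun i => ((e m u i : ℕ) : ℤ)) = _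
    congr 1
    ext i
    rw [he1 m u hu i]
    simp
  choose d hd1 hd2 using fun m => exists_ord (ZMod 2) μ (U m)
  refine ⟨fun m u => d m (e m u), ?_, ?_, ?_⟩
  · intro m hm J
    refine le_trans ?_ (card_filter_ord hn (hd2 m) J)
    apply Finset.card_le_card_of_injOn (e m)
    · intro u hu
      rw [Finset.mem_coe, Finset.mem_filter] at hu
      rw [Finset.mem_coe, Finset.mem_filter]
      exact ⟨Finset.mem_image_of_mem (e m) hu.1, hu.2⟩
    · intro u hu v hv h
      rw [Finset.mem_coe, Finset.mem_filter] at hu hv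
      exact heinj m u hu.1 v hv.1 h
  · intro ι t m u k hmu hk c hc0 hcK
    have hwit : ∀ i : ι, ∃ f : MvPolynomial (Fin n) (ZMod 2), i ∈ t →
        Wit μ (U (m i)) (d (m i) (e (m i) (u i))) (e (m i) (u i)) f := by
      intro i
      by_cases hi : i ∈ t
      · obtain ⟨f, hf⟩ := hd1 (m i) (e (m i) (u i)) (Finset.mem_image_of_mem (e (m i)) (hmu i hi).2)
        exact ⟨f, fun _ => hf⟩
      · exact ⟨0, fun h => absurd h hi⟩
    choose s hs using hwit
    set M : ℕ := ∑ i ∈ t, k i * m i with hM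
    have hMpos : 0 < M := by
      obtain ⟨i, hi, hki⟩ := Finset.exists_ne_zero_of_sum_ne_zero hk.ne'
      have h1 : k i * m i ≤ M := Finset.single_le_sum (f := fun i => k i * m i)
        (fun _ _ => Nat.zero_le _) hi
      have h2 : 0 < k i * m i := Nat.mul_pos (Nat.pos_of_ne_zero hki) (hmu i hi).1
      omega
    have hM0 : (0 : ℝ) < M := by exact_mod_cast hMpos
    have hMr : (M : ℝ) = ∑ i ∈ t, (k i : ℝ) * (m i : ℝ) := by rw [hM]; push_cast; rfl
    set S : Set (Fin n → ℝ) := {y | ∃ x ∈ K, ∀ i, y i = x i + T} with hS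
    have hSconv : Convex ℝ S := by
      rintro y ⟨x, hx, hxy⟩ y' ⟨x', hx', hxy'⟩ a b ha hb' hab
      refine ⟨a • x + b • x', hc hx hx' ha hb' hab, fun i => ?_⟩
      simp only [Pi.add_apply, Pi.smul_apply, smul_eq_mul]
      rw [hxy i, hxy' i]
      linear_combination (T : ℝ) * hab
    have hSne : S.Nonempty := ⟨fun _ => (0 : ℝ) + T, 0, interior_subset h0, fun i => rfl⟩
    have hUS : ∀ m, ∀ v ∈ U m, toReal v ∈ (m : ℝ) • S := by
      intro m v hv
      obtain ⟨u, hu, rfl⟩ := Finset.mem_image.1 hv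
      obtain ⟨x, hx, hxu⟩ := hmem' m u hu
      refine ⟨fun i => x i + T, ⟨x, hx, fun i => rfl⟩, ?_⟩
      ext i
      have h1 := he1 m u hu i
      have h2 : ((e m u i : ℕ) : ℝ) = (u i : ℝ) + m * T := by exact_mod_cast h1
      simp only [Pi.smul_apply, smul_eq_mul]
      rw [toReal, h2, hxu i]
      ring
    have hlead : IsLead μ (∏ i ∈ t, s i ^ k i) (∑ i ∈ t, k i • e (m i) (u i)) :=
      IsLead.prod hμ _ fun i hi => ((hs i hi).2.2).pow hμ _
    have hsupp : SuppIn ((M : ℝ) • S) (∏ i ∈ t, s i ^ k i) := by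
      refine SuppIn.prod_pow_fam hSconv hSne _ s m k fun i hi v hv => ?_
      exact hUS (m i) v ((hs i hi).1 hv)
    have hpow : (∏ i ∈ t, s i ^ k i) ∈
        onePt n (ZMod 2) ^ (∑ i ∈ t, k i * d (m i) (e (m i) (u i))) := by
      rw [← Finset.prod_pow_eq_pow_sum]
      refine Ideal.prod_mem_prod fun i hi => ?_
      rw [mul_comm, pow_mul]
      exact Ideal.pow_mem_pow (hs i hi).2.1 _
    have hfin := order_le (P := interior K) hn hμ (hSconv.smul (M : ℝ)) hlead hsupp hpow
      (c := c / M) (by positivity)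
      (by
        intro x hx θ h1 h2
        have h3 := hc.interior hx h0 h1 (sub_nonneg.2 h2) (by ring)
        rwa [smul_zero, add_zero] at h3)
      (by
        intro x hx
        have h1 := hlat _ hx fun i => ⟨x i, rfl⟩
        ext i
        have h2 := congrFun h1 i
        simp only [Pi.zero_apply] at h2 ⊢
        exact_mod_cast h2)
      (by
        rintro y ⟨y', ⟨x, hx, hxy⟩, rfl⟩
        have h1 := hcK x hx
        convert h1 using 1
        ext i
        have h2 : toReal (∑ i ∈ t, k i • e (m i) (u i)) i =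
            ∑ l ∈ t, (k l : ℝ) * (u l i : ℝ) + M * T := by
          rw [toReal, Finsupp.finsetSum_apply]
          push_cast
          rw [hMr, Finset.sum_mul, ← Finset.sum_add_distrib]
          refine Finset.sum_congr rfl fun l hl => ?_
          have h3 := he1 (m l) (u l) (hmu l hl).2 i
          have h4 : ((e (m l) (u l) i : ℕ) : ℝ) = (u l i : ℝ) + m l * T := by exact_mod_cast h3
          have h6 : (((k l • ⇑(e (m l) (u l))) i : ℕ) : ℝ) =
              (k l : ℝ) * ((e (m l) (u l) i : ℕ) : ℝ) := by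
            simp
          rw [h6, h4]; ring
        simp only [Pi.smul_apply, Pi.sub_apply, smul_eq_mul]
        rw [h2, hxy i, ← hMr]
        field_simp
        ring)
    have h5 : c / M * ((∑ i ∈ t, k i * d (m i) (e (m i) (u i)) : ℕ) : ℝ) =
        (c * ∑ i ∈ t, (k i : ℝ) * (d (m i) (e (m i) (u i)) : ℝ)) / M := by
      push_cast; ring
    rw [h5, div_le_iff₀ hM0, hMr] at hfin
    exact hfin
  · intro m hm u hu D hD
    obtain ⟨f, hf1, hf2, hf3⟩ := hd1 m (e m u) (Finset.mem_image_of_mem (e m) hu)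
    have h1 := le_of_support_bound hf3.ne_zero hf2
      (Finsupp.equivFunOnFinite.symm fun i => e m u i - D) (B := ∑ _i : Fin n, 2 * D) (by
      intro v hv
      obtain ⟨w, hw, rfl⟩ := Finset.mem_image.1 (hf1 hv)
      have h2 := hf3.2 _ hv
      rw [hμe m w hw, hμe m u hu] at h2
      have h3 := hD w hw (le_of_add_le_add_right h2)
      have h4 : ∀ i, (e m w i : ℤ) - e m u i = w i - u i := by
        intro i
        rw [he1 m w hw i, he1 m u hu i]; ring
      constructor
      · intro i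
        have h5 := h3 i
        rw [← h4 i, abs_le] at h5
        simp only [Finsupp.equivFunOnFinite_symm_apply_apply]
        omega
      · refine Finset.sum_le_sum fun i _ => ?_
        have h5 := h3 i
        rw [← h4 i, abs_le] at h5
        simp only [Finsupp.equivFunOnFinite_symm_apply_apply]
        omega)
    refine h1.trans (le_of_eq ?_)
    simp
    ring

end Pool.Agent.Lib.Helper13.Frob
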